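import Pool.Agent.Lib.MP_e813cc_gt.Final

set_option autoImplicit false

open Finset Module

namespace Pool.Agent.VRCube

theorem pascal (f : ℕ → ℕ → ℕ) (h : ∀ q i, i ≤ q → f (q + 1) i = f (q + 1) (i + 1) + f q i)
    (t : ℕ) : ∀ i, f (i + t) i = ∑ s ∈ range (t + 1), t.choose s * f (i + s) (i + s) := by
  induction t with
  | zero => simp
  | succ t ih =>
    intro i
    have e : i + t + 1 = i + 1 + t := by omega
    have h' := Finset.sum_choose_succ_mul (fun s _ => f (i + s) (i + s)) t
    simp only [Nat.cast_id] at h'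
    rw [h', ← add_assoc, h _ _ (by omega), ih i, e, ih (i + 1), add_comm]
    simp only [add_assoc, add_comm 1]

theorem pascal0 (f : ℕ → ℕ → ℕ) (h : ∀ q i, i ≤ q → f (q + 1) i = f (q + 1) (i + 1) + f q i)
    (t : ℕ) : f t 0 = ∑ s ∈ range (t + 1), t.choose s * f s s := by
  simpa only [Nat.zero_add] using pascal f h t 0

theorem choose_choose (n p : ℕ) :
    ∑ s ∈ range (n + 1), n.choose s * s.choose p = 2 ^ (n - p) * n.choose p := by
  induction n generalizing p with
  | zero => simp
  | succ n ih =>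
    have h := Finset.sum_choose_succ_mul (fun s _ => s.choose p) n
    simp only [Nat.cast_id] at h
    rw [h, ih]
    cases p with
    | zero => simp [Nat.sum_range_choose, pow_succ]; ring
    | succ p =>
      simp only [Nat.choose_succ_succ', mul_add, Finset.sum_add_distrib, ih, Nat.add_sub_add_right]
      rcases le_or_gt n p with H | H
      · simp [Nat.choose_eq_zero_of_lt (Nat.lt_succ_of_le H)]
      · rw [show n - p = n - (p + 1) + 1 by omega, pow_succ]; ring

theorem choose_av (n p : ℕ) : ∑ s ∈ range n, n.choose (s + 1) * s.choose p =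
    ∑ i ∈ range n, 2 ^ (i - p) * i.choose p := by
  induction n with
  | zero => simp
  | succ n ih =>
    rw [sum_range_succ (fun i => 2 ^ (i - p) * i.choose p) n, ← ih, ← choose_choose]
    simp only [Nat.choose_succ_succ', add_mul, Finset.sum_add_distrib]
    rw [add_comm, sum_range_succ (fun s => n.choose (s + 1) * s.choose p) n]
    simp

variable (k : Type*) [Field k]

theorem rank_step {M : Type*} [AddCommGroup M] [Module k M] {A A' B : Submodule k M}
    [FiniteDimensional k A] (L : M →ₗ[k] M) (h1 : A.map L = B) (h2 : A' = A ⊓ LinearMap.ker L) :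
    finrank k A = finrank k A' + finrank k B := by
  have h := (L.domRestrict A).finrank_range_add_finrank_ker
  rw [LinearMap.range_domRestrict, h1, LinearMap.ker_domRestrict] at h
  rw [← h, add_comm, h2]
  congr 1
  rw [← Submodule.map_comap_subtype]
  exact (Submodule.equivMapOfInjective _ A.injective_subtype _).finrank_eq

/-- merge the coordinates `j`, `j + 1` and delete the second -/
def mm (j : ℕ) : Om → Om := ss (j + 1) ∘ cc j false

theorem ker_iff {f g φ : Om → Om} (h1 : f ∘ φ = f) (h2 : φ = g ∘ f) (a : Lam k Om) :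
    act k f a = 0 ↔ act k φ a = 0 :=
  ⟨fun h => by rw [h2, ← act_act, h, map_zero], act_eq_zero k h1⟩

/-- families closed under the cube operators -/
structure Fam (S : ℕ → Submodule k (Lam k Om)) : Prop where
  fin : ∀ q, FiniteDimensional k (S q)
  s : ∀ q i, i ≤ q → ∀ a ∈ S (q + 1), act k (ss i) a ∈ S q
  d : ∀ q i e, i ≤ q → ∀ a ∈ S q, act k (dd i e) a ∈ S (q + 1)
  c : ∀ q j, j + 1 < q → ∀ a ∈ S q, act k (cc j false) a ∈ S q

/-- killed by the first `i` degeneracies and the first `j` connections -/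
def Kn (i j : ℕ) : Submodule k (Lam k Om) where
  carrier := {a | (∀ l < i, act k (uu l false) a = 0) ∧ ∀ l < j, act k (cc l false) a = 0}
  add_mem' := fun {a b} ha hb => ⟨fun i hi => by rw [map_add, ha.1 i hi, hb.1 i hi, add_zero],
    fun j hj => by rw [map_add, ha.2 j hj, hb.2 j hj, add_zero]⟩
  zero_mem' := ⟨fun _ _ => map_zero _, fun _ _ => map_zero _⟩
  smul_mem' := fun c {a} ha => ⟨fun i hi => by rw [map_smul, ha.1 i hi, smul_zero],
    fun j hj => by rw [map_smul, ha.2 j hj, smul_zero]⟩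

variable {k}

theorem Fam.stepA {S : ℕ → Submodule k (Lam k Om)} (h : Fam k S) (q i : ℕ) (hi : i ≤ q) :
    finrank k (S (q + 1) ⊓ Kn k i 0 :) =
      finrank k (S (q + 1) ⊓ Kn k (i + 1) 0 :) + finrank k (S q ⊓ Kn k i 0 :) := by
  have := h.fin (q + 1)
  refine rank_step k (act k (ss i)) (le_antisymm ?_ fun b hb => ?_) ?_
  · rintro _ ⟨a, ha, rfl⟩
    refine ⟨h.s q i hi a ha.1, fun l hl => ?_, by simp⟩
    rw [act_act]
    refine act_eq_zero k ?_ (ha.2.1 l hl)
    funext x t; simp only [Function.comp, ss, uu]; grind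
  · refine ⟨act k (dd i false) b, ⟨h.d q i _ hi b hb.1, fun l hl => ?_, by simp⟩, ?_⟩
    · rw [act_act]
      exact act_eq_zero k (uu_dd_lt hl _) (hb.2.1 l hl)
    · rw [act_act, show ss i ∘ dd i false = id by
        funext x t; simp only [Function.comp, ss, dd, id]; grind, act_id]
      rfl
  · have e := ker_iff k (f := ss i) (g := dd i false) (φ := uu i false)
      (by funext x t; simp only [Function.comp, ss, uu]; grind)
      (by funext x t; simp only [Function.comp, ss, uu, dd]; grind)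
    ext a
    refine ⟨fun ha => ⟨⟨ha.1, fun l hl => ha.2.1 l (by omega), ha.2.2⟩,
      (e a).2 (ha.2.1 i i.lt_succ_self)⟩, fun ha => ⟨ha.1.1, fun l hl => ?_, ha.1.2.2⟩⟩
    rcases (Nat.lt_succ_iff.1 hl).eq_or_lt with rfl | hl
    · exact (e a).1 ha.2
    · exact ha.1.2.1 l hl

theorem Fam.stepB {S : ℕ → Submodule k (Lam k Om)} (h : Fam k S) (q j : ℕ) (hj : j ≤ q) :
    finrank k (S (q + 2) ⊓ Kn k (q + 2) j :) =
      finrank k (S (q + 2) ⊓ Kn k (q + 2) (j + 1) :) + finrank k (S (q + 1) ⊓ Kn k (q + 1) j :) := by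
  have := h.fin (q + 2)
  refine rank_step k (act k (mm j)) (le_antisymm ?_ fun b hb => ?_) ?_
  · rintro _ ⟨a, ha, rfl⟩
    refine ⟨?_, fun l hl => ?_, fun l hl => ?_⟩
    · rw [mm, ← act_act]
      exact h.s _ _ (by omega) _ (h.c _ _ (by omega) a ha.1)
    · rw [act_act]
      rcases le_or_gt l j with H | H
      · refine act_eq_zero k ?_ (ha.2.1 l (by omega))
        funext x t; simp only [Function.comp, mm, ss, uu, cc]; grind
      · refine act_eq_zero k ?_ (ha.2.1 (l + 1) (by omega))
        funext x t; simp only [Function.comp, mm, ss, uu, cc]; grind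
    · rw [act_act]
      refine act_eq_zero k ?_ (ha.2.2 l hl)
      funext x t; simp only [Function.comp, mm, ss, cc]; grind
  · refine ⟨act k (dd (j + 1) false) b - act k (dd (j + 1) true) b,
      ⟨sub_mem (h.d _ _ _ (by omega) b hb.1) (h.d _ _ _ (by omega) b hb.1), fun l hl => ?_,
        fun l hl => ?_⟩, ?_⟩
    · rw [map_sub, act_act, act_act]
      rcases lt_trichotomy l (j + 1) with H | rfl | H
      · rw [act_eq_zero k (uu_dd_lt H _) (hb.2.1 l (by omega)),
          act_eq_zero k (uu_dd_lt H _) (hb.2.1 l (by omega)), sub_zero]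
      · rw [uu_dd_same, uu_dd_same, sub_self]
      · obtain ⟨l, rfl⟩ : ∃ l', l = l' + 1 := ⟨l - 1, by omega⟩
        rw [act_eq_zero k (uu_dd_gt (by omega) _) (hb.2.1 l (by omega)),
          act_eq_zero k (uu_dd_gt (by omega) _) (hb.2.1 l (by omega)), sub_zero]
    · rw [map_sub, act_act, act_act, act_eq_zero k (cc_dd_gt (by omega) _) (hb.2.2 l hl),
        act_eq_zero k (cc_dd_gt (by omega) _) (hb.2.2 l hl), sub_zero]
    · rw [map_sub, act_act, act_act, show mm j ∘ dd (j + 1) false = id by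
        funext x t; simp only [Function.comp, mm, ss, dd, cc, id]; grind, act_id,
        act_eq_zero k (φ := uu j false) (by
          funext x t; simp only [Function.comp, mm, ss, dd, cc, uu]; grind) (hb.2.1 j (by omega)),
        sub_zero]
      rfl
  · have e := ker_iff k (f := mm j) (g := dd (j + 1) false) (φ := cc j false)
      (by funext x t; simp only [Function.comp, mm, ss, cc]; grind)
      (by funext x t; simp only [Function.comp, mm, ss, cc, dd]; grind)
    ext a
    refine ⟨fun ha => ⟨⟨ha.1, ha.2.1, fun l hl => ha.2.2 l (by omega)⟩,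
      (e a).2 (ha.2.2 j j.lt_succ_self)⟩, fun ha => ⟨ha.1.1, ha.1.2.1, fun l hl => ?_⟩⟩
    rcases (Nat.lt_succ_iff.1 hl).eq_or_lt with rfl | hl
    · exact (e a).1 ha.2
    · exact ha.1.2.2 l hl

theorem Kn_Nm (q : ℕ) : Kn k q (q - 1) = Nm k q := by
  ext a
  exact ⟨fun h => ⟨h.1, fun j hj => h.2 j (by omega)⟩, fun h => ⟨h.1, fun j hj => h.2 j (by omega)⟩⟩

theorem Fam.rank {S : ℕ → Submodule k (Lam k Om)} (h : Fam k S) (n : ℕ) :
    finrank k (S n) = finrank k (S 0 ⊓ Nm k 0 :) + ∑ p ∈ range n,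
      finrank k (S (p + 1) ⊓ Nm k (p + 1) :) * ∑ i ∈ range n, 2 ^ (i - p) * i.choose p := by
  have h1 := pascal0 (fun q i => finrank k (S q ⊓ Kn k i 0 :)) h.stepA n
  have h2 := pascal0 (fun q j => finrank k (S (q + 1) ⊓ Kn k (q + 1) j :)) h.stepB
  have h3 : S n ⊓ Kn k 0 0 = S n := inf_eq_left.2 fun a _ => ⟨by simp, by simp⟩
  have h4 : ∀ p, finrank k (S (p + 1) ⊓ Nm k (p + 1) :) =
      finrank k (S (p + 1) ⊓ Kn k (p + 1) p :) := fun p => by rw [← Kn_Nm]; rfl
  rw [h3, sum_range_succ'] at h1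
  rw [h1, add_comm, Nat.choose_zero_right, one_mul, ← Kn_Nm]
  congr 1
  simp only [h2, h4, ← choose_av, Finset.mul_sum]
  rw [Finset.sum_comm]
  refine Finset.sum_congr rfl fun s hs => ?_
  rw [Finset.sum_subset (range_subset_range.2 (mem_range.1 hs : s + 1 ≤ n)) fun p _ hp => by
    rw [Nat.choose_eq_zero_of_lt (n := s) (by simpa using hp)]; simp]
  exact Finset.sum_congr rfl fun p _ => by ring

variable (k) {n r : ℕ}

/-- the coordinates below `n` -/
def res (n : ℕ) (x : Om) : Vt n := toLex fun i => x i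

theorem res_face : IsFaceE n (res n) id :=
  ⟨strictMono_id, fun _ _ => rfl, fun i hi => absurd ⟨i, rfl⟩ hi⟩

/-- chains of the `n`-cube inside the exterior algebra of the infinite cube -/
noncomputable def Psi (n : ℕ) : (Finset (Vt n) →₀ k) →ₗ[k] Lam k Om :=
  act k (retr id) ∘ₗ (Phi k).toLinearMap

theorem Psi_inj : Function.Injective (Psi k n) := by
  have h : res n ∘ retr id = id := by
    funext v; apply ofLex.injective; funext i; simp [res, retr]
  intro x y hxy
  have := congrArg (act k (res n)) hxy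
  simp only [Psi, LinearMap.comp_apply, act_act, h, act_id, LinearMap.id_apply] at this
  exact (Phi k).injective this

theorem retr_res {len : ℕ} {a : Lam k Om} (ha : a ∈ AA k r n len) :
    act k (retr id) (act k (res n) a) = a := by
  have := map_mem k (S := ⊥) (act k (retr id) ∘ₗ act k (res n) - LinearMap.id) (fun l hl => by
    rw [LinearMap.sub_apply, LinearMap.comp_apply, act_act, act_wedge,
      List.map_congr_left (f := retr id ∘ res n) (g := id) fun x hx =>
        res_face.retr_apply (hl.2.1 x hx)]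
    simp) ha
  simpa [sub_eq_zero] using this

theorem Psi_chains (m : ℕ) : (chains k n r n m).map (Psi k n) = AA k r n (m + 1) := by
  refine le_antisymm ?_ fun a ha => ?_
  · rintro _ ⟨x, hx, rfl⟩
    refine map_mem k (act k (retr id)) (fun l hl => ?_)
      (Phi_chains k (p := n) (len := m + 1) le_rfl (by simp) hx)
    obtain ⟨f, l', ⟨e, hf⟩, hl', rfl⟩ := exists_face le_rfl hl
    obtain rfl : e = id := hf.mono.eq_id
    rw [act_wedge, List.map_map,
      List.map_congr_left (f := retr id ∘ f) (g := id) fun x hx => hf.retr_apply (hl'.2.1 x hx),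
      List.map_id]
    exact wedge_mem k hl'
  · refine ⟨_, chains_of_TT' k le_rfl rfl (face_AA k ⟨_, res_face⟩ ha), ?_⟩
    rw [Psi, LinearMap.comp_apply, LinearEquiv.coe_coe, LinearEquiv.apply_symm_apply,
      retr_res k ha]

theorem Psi_bd {m : ℕ} (hm : 1 ≤ m) {x : Finset (Vt n) →₀ k} (hx : x ∈ chains k n r n m) :
    Psi k n (bd k (Vt n) x) = del k Om (Psi k n x) := by
  simp only [Psi, LinearMap.comp_apply, LinearEquiv.coe_coe]
  rw [Phi_bd k (by exact_mod_cast hm) hx,
    act_del k _ (Phi_chains k (p := n) (len := m + 1) le_rfl (by simp) hx)]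

theorem fam_AA (m : ℕ) : Fam k fun q => AA k r q (m + 1) where
  fin q := by rw [← Psi_chains]; infer_instance
  s q i hi a ha := act_mem k _ (fun l hl => hl.map (fun x hx t ht => by
    have := hx (t + 1) (by omega)
    simp only [ss]; grind) (close_ss i)) ha
  d q i e hi a ha := act_mem k _ (fun l hl => hl.map (fun x hx t ht => by
    have := hx (t - 1) (by omega)
    simp only [dd]; grind) (close_of _ (fun t => if t < i then t else t + 1) fun x y t ht => by
      simp only [dd] at ht
      by_cases h1 : t < i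
      · exact ⟨t, by grind, by grind⟩
      · exact ⟨t - 1, by grind, by grind⟩)) ha
  c q j hj a ha := cc_mem_AA k hj _ ha

theorem fam_Z (m : ℕ) : Fam k fun q => AA k r q (m + 1) ⊓ LinearMap.ker (del k Om) := by
  have h := fam_AA k (r := r) m
  have key : ∀ (f : Om → Om) (q : ℕ), ∀ a ∈ AA k r q (m + 1) ⊓ LinearMap.ker (del k Om),
      act k f a ∈ LinearMap.ker (del k Om) := fun f q a ha => by
    rw [LinearMap.mem_ker, ← act_del k f ha.1, ha.2, map_zero]
  exact ⟨fun q => have := h.fin q; inferInstance,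
    fun q i hi a ha => ⟨h.s q i hi a ha.1, key _ _ a ha⟩,
    fun q i e hi a ha => ⟨h.d q i e hi a ha.1, key _ _ a ha⟩,
    fun q j hj a ha => ⟨h.c q j hj a ha.1, key _ _ a ha⟩⟩

theorem fam_B (m : ℕ) : Fam k fun q => (AA k r q (m + 1)).map (del k Om) := by
  have h := fam_AA k (r := r) m
  refine ⟨fun q => have := h.fin q; inferInstance, fun q i hi => ?_, fun q i e hi => ?_,
    fun q j hj => ?_⟩
  · rintro _ ⟨a, ha, rfl⟩
    exact ⟨_, h.s q i hi a ha, (act_del k _ ha).symm⟩
  · rintro _ ⟨a, ha, rfl⟩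
    exact ⟨_, h.d q i e hi a ha, (act_del k _ ha).symm⟩
  · rintro _ ⟨a, ha, rfl⟩
    exact ⟨_, h.c q j hj a ha, (act_del k _ ha).symm⟩

theorem AA_le_Low {q m : ℕ} (h : (m + 1) * r < 2 * q) :
    AA k r q (m + 1) ≤ Low k r q (m + 1) := by
  refine sp_le k fun l hl => wedge_mem k ⟨hl, ?_⟩
  by_contra H
  push Not at H
  have hlen : l.length = m + 1 := hl.1
  obtain ⟨x, hx, hp, hs⟩ : ∃ x : ℕ → Om, (∀ j, x j ∈ l) ∧ x (m + 1) = x 0 ∧
      ∀ y ∈ l, ∃ j < m + 1, x j = y := by
    refine ⟨fun j => l[j % (m + 1)]'((Nat.mod_lt _ m.succ_pos).trans_eq hlen.symm),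
      fun j => List.getElem_mem _, by simp, fun y hy => ?_⟩
    obtain ⟨j, hj, rfl⟩ := List.getElem_of_mem hy
    exact ⟨j, by omega, by simp [Nat.mod_eq_of_lt (hj.trans_eq hlen)]⟩
  choose T h1 h2 using fun j => hl.2.2 _ (hx j) _ (hx (j + 1))
  have key : ∀ i < q, ∀ e, ∃ j < m + 1, x j i = e ∧ x (j + 1) i ≠ e := by
    intro i hi e
    by_contra Hc
    push Not at Hc
    have up : ∀ a t, a + t ≤ m + 1 → x a i = e → x (a + t) i = e := fun a t => by
      induction t with
      | zero => exact fun _ h => h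
      | succ t ih => exact fun h h' => Hc (a + t) (by omega) (ih (by omega) h')
    obtain ⟨y, hy, h3⟩ := H i hi (!e)
    obtain ⟨z, hz, h4⟩ := H i hi e
    obtain ⟨a, ha, rfl⟩ := hs y hy
    obtain ⟨b, hb, rfl⟩ := hs z hz
    have h5 := up a (m + 1 - a) (by omega) (by simpa using h3)
    rw [show a + (m + 1 - a) = m + 1 by omega, hp] at h5
    exact h4 (by simpa using up 0 b (by omega) h5)
  have := card_mul_le_card_mul (s := range q) (t := range (m + 1)) (m := 2) (n := r)
    (fun i j => i ∈ T j) (fun i hi => ?_) fun j _ =>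
      (card_le_card fun i hi => (mem_filter.1 hi).2).trans (h1 j)
  · simp only [card_range] at this; omega
  · obtain ⟨a, ha, h3, h4⟩ := key i (mem_range.1 hi) true
    obtain ⟨b, hb, h5, h6⟩ := key i (mem_range.1 hi) false
    exact one_lt_card.2 ⟨a, mem_filter.2 ⟨mem_range.2 ha, h2 a i (by rw [h3]; exact h4.symm)⟩, b,
      mem_filter.2 ⟨mem_range.2 hb, h2 b i (by rw [h5]; exact h6.symm)⟩,
      fun h => by rw [h, h5] at h3; exact Bool.false_ne_true h3⟩

theorem BB_BB (q : ℕ) (a : Lam k Om) : BB k (q + 1) (BB k q a) = 0 := by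
  induction q generalizing a with
  | zero => simp [BB]
  | succ q ih =>
    have e : ∀ i ≤ q, ∀ x, (act k (dd i true) - act k (dd i false))
        ((act k (dd q true) - act k (dd q false)) x) =
        (act k (dd (q + 1) true) - act k (dd (q + 1) false))
          ((act k (dd i true) - act k (dd i false)) x) := fun i hi x => by
      simp only [LinearMap.sub_apply, map_sub, act_act, dd_dd hi]
      abel
    have s : ∀ q x, BB k (q + 1) x =
        BB k q x + (-1 : k) ^ q • (act k (dd q true) - act k (dd q false)) x := fun q x => by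
      rw [BB, sum_range_succ]; rfl
    have t : BB k (q + 1) ((act k (dd q true) - act k (dd q false)) a) =
        (act k (dd (q + 1) true) - act k (dd (q + 1) false)) (BB k (q + 1) a) := by
      simp only [BB, LinearMap.sum_apply, LinearMap.smul_apply, map_sum, map_smul]
      exact Finset.sum_congr rfl fun i hi => by rw [e i (Nat.lt_succ_iff.1 (mem_range.1 hi))]
    have u : BB k (q + 1) (BB k (q + 1) a) =
        (-1 : k) ^ q • BB k (q + 1) ((act k (dd q true) - act k (dd q false)) a) := by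
      rw [s q a, map_add, ih, map_smul, zero_add]
    rw [s (q + 1), ← t, u, pow_succ]
    simp

theorem Nm_AA {q m : ℕ} (h : (m + 1) * r + 2 < 2 * q) : AA k r q (m + 1) ⊓ Nm k q = ⊥ := by
  obtain ⟨q, rfl⟩ : ∃ q', q = q' + 2 := ⟨q - 2, by omega⟩
  refine eq_bot_iff.2 fun a ha => ?_
  obtain ⟨b, hb, rfl⟩ := Low_Nm k (AA_le_Low k (by omega) ha.1) ha.2
  obtain ⟨c, -, rfl⟩ := Low_Nm k (AA_le_Low k (by omega) hb.2) hb.1
  exact BB_BB k _ c

/-- The `m`-cycles of the Vietoris-Rips complex of the `n`-cube at scale `r`. -/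
noncomputable def cyc (n r m : ℕ) : Submodule k (Finset (Lex (Fin n → Bool)) →₀ k) :=
  chains k n r n m ⊓ LinearMap.ker (bd k (Lex (Fin n → Bool)))

/-- The `m`-boundaries. -/
noncomputable def bdry (n r m : ℕ) : Submodule k (Finset (Lex (Fin n → Bool)) →₀ k) :=
  (chains k n r n (m + 1)).map (bd k (Lex (Fin n → Bool)))

section Subq

variable {k} {C : Type*} [AddCommGroup C] [Module k C] (Z B : Submodule k C)

/-- The quotient space `Z / (B ∩ Z)`. -/
def Subq := Z ⧸ B.submoduleOf Z

instance : AddCommGroup (Subq Z B) := Submodule.Quotient.addCommGroup _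

instance : Module k (Subq Z B) := Submodule.Quotient.module _

theorem Subq_rank {Z B : Submodule k C} (h : B ≤ Z) [FiniteDimensional k Z] :
    finrank k (Subq Z B) + finrank k B = finrank k Z := by
  rw [← (Submodule.submoduleOfEquivOfLe h).finrank_eq]
  exact Submodule.finrank_quotient_add_finrank _

end Subq

theorem betti (r m : ℕ) : ∃ a : ℕ → ℕ, (∀ p, (m + 1) * r + 2 < 2 * p → a p = 0) ∧ ∀ n,
    finrank k (Subq (cyc k n r m) (bdry k n r m)) = a 0 + ∑ p ∈ range n, a (p + 1) *
      ∑ i ∈ range n, 2 ^ (i - p) * i.choose p := by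
  obtain ⟨Z, hZ, h1, h2, h3⟩ : ∃ Z, Fam k Z ∧ (∀ q, Z q ≤ AA k r q (m + 1)) ∧
      (∀ q, (AA k r q (m + 1 + 1)).map (del k Om) ≤ Z q) ∧ ∀ n,
      (cyc k n r m).map (Psi k n) = Z n := by
    have hB : ∀ q, (AA k r q (m + 1 + 1)).map (del k Om) ≤
        AA k r q (m + 1) ⊓ LinearMap.ker (del k Om) := fun q => by
      rintro _ ⟨a, ha, rfl⟩
      exact ⟨del_AA k ha, del_del k a⟩
    rcases Nat.eq_zero_or_pos m with rfl | hm
    · refine ⟨_, fam_AA k 0, fun _ => le_rfl, fun q => (hB q).trans inf_le_left, fun n => ?_⟩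
      refine (congrArg _ (inf_eq_left.2 fun x hx => ?_)).trans (Psi_chains k 0)
      refine chains_map k (T := ⊥) (bd k (Vt n)) (fun σ _ h2 _ => ?_) hx
      rw [bd, Finsupp.linearCombination_single, if_pos (by omega), smul_zero]
      exact zero_mem _
    · refine ⟨_, fam_Z k m, fun _ => inf_le_left, hB, fun n => le_antisymm ?_ fun a ha => ?_⟩
      · rintro _ ⟨x, hx, rfl⟩
        refine ⟨Psi_chains k (n := n) m ▸ Submodule.mem_map_of_mem hx.1, ?_⟩
        rw [SetLike.mem_coe, LinearMap.mem_ker, ← Psi_bd k hm hx.1, hx.2, map_zero]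
      · obtain ⟨x, hx, rfl⟩ := (Psi_chains k (n := n) m).ge ha.1
        refine ⟨x, ⟨hx, Psi_inj k ?_⟩, rfl⟩
        rw [Psi_bd k hm hx, map_zero]
        exact ha.2
  have h4 : ∀ n, (bdry k n r m).map (Psi k n) =
      (AA k r n (m + 1 + 1)).map (del k Om) := fun n => by
    rw [← Psi_chains k (m + 1)]
    refine le_antisymm ?_ ?_
    · rintro _ ⟨_, ⟨x, hx, rfl⟩, rfl⟩
      exact ⟨_, ⟨x, hx, rfl⟩, (Psi_bd k (m := m + 1) (by omega) hx).symm⟩
    · rintro _ ⟨_, ⟨x, hx, rfl⟩, rfl⟩
      exact ⟨_, ⟨x, hx, rfl⟩, Psi_bd k (m := m + 1) (by omega) hx⟩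
  have hB := fam_B k (r := r) (m + 1)
  have h5 : ∀ p, ∃ a, finrank k (Z p ⊓ Nm k p :) =
      a + finrank k ((AA k r p (m + 1 + 1)).map (del k Om) ⊓ Nm k p :) := fun p =>
    have := hZ.fin p
    Nat.exists_eq_add_of_le' (Submodule.finrank_mono (inf_le_inf_right _ (h2 p)))
  choose a ha using h5
  refine ⟨a, fun p hp => ?_, fun n => ?_⟩
  · have h := ha p
    rw [eq_bot_iff.2 ((inf_le_inf_right _ (h1 p)).trans (Nm_AA k hp).le), finrank_bot] at h
    omega
  · have h6 : bdry k n r m ≤ cyc k n r m := by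
      rw [← Submodule.map_le_map_iff_of_injective (Psi_inj k), h3, h4]
      exact h2 n
    have h7 := Subq_rank h6
    rw [(Submodule.equivMapOfInjective _ (Psi_inj k) (bdry k n r m)).finrank_eq,
      (Submodule.equivMapOfInjective _ (Psi_inj k) (cyc k n r m)).finrank_eq, h3, h4,
      hZ.rank, hB.rank] at h7
    simp only [ha, add_mul, Finset.sum_add_distrib] at h7
    omega

end Pool.Agent.VRCube
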