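import Pool.Agent.Lib.MP_e813cc_gt.Wedge

set_option autoImplicit false

open Finset

namespace Pool.Agent.VRCube

/-- The infinite cube. -/
abbrev Om := ℕ → Bool

/-- Set coordinate `i` to `e`. -/
def uu (i : ℕ) (e : Bool) (x : Om) : Om := fun t => if t = i then e else x t

/-- Merge the coordinates `j`, `j+1` into `j` (maximum) and set coordinate `j+1` to `e`. -/
def cc (j : ℕ) (e : Bool) (x : Om) : Om :=
  fun t => if t = j then (x j || x (j + 1)) else if t = j + 1 then e else x t

/-- Insert the value `e` at coordinate `i`. -/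
def dd (i : ℕ) (e : Bool) (x : Om) : Om :=
  fun t => if t < i then x t else if t = i then e else x (t - 1)

/-- Delete coordinate `i`. -/
def ss (i : ℕ) (x : Om) : Om := fun t => if t < i then x t else x (t + 1)

theorem uu_uu_same (i : ℕ) (e e' : Bool) : uu i e ∘ uu i e' = uu i e := by
  funext x t; simp only [Function.comp, uu]; grind

theorem uu_uu {i j : ℕ} (h : i ≠ j) (e e' : Bool) : uu i e ∘ uu j e' = uu j e' ∘ uu i e := by
  funext x t; simp only [Function.comp, uu]; grind

theorem cc_cc0 (j : ℕ) (e : Bool) : cc j e ∘ cc j false = cc j e := by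
  funext x t; simp only [Function.comp, cc]; grind

theorem cc_cc1 (j : ℕ) : (cc j false ∘ cc j true) ∘ uu j false = cc j false ∘ cc j true := by
  funext x t; simp only [Function.comp, cc, uu]; grind

theorem uu_cc_succ (j : ℕ) (e e' : Bool) : uu (j + 1) e' ∘ cc j e = cc j e' := by
  funext x t; simp only [Function.comp, cc, uu]; grind

theorem uu_cc {i j : ℕ} (h : i ≠ j + 1) (e : Bool) :
    (uu i false ∘ cc j e) ∘ uu i false = uu i false ∘ cc j e := by
  funext x t; simp only [Function.comp, cc, uu]; grind

theorem cc_uu {i j : ℕ} (h : j + 1 < i) (e e' : Bool) : cc j e ∘ uu i e' = uu i e' ∘ cc j e := by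
  funext x t; simp only [Function.comp, cc, uu]; grind

theorem cc_cc {j' j : ℕ} (h : j' < j) (e : Bool) :
    (cc j' false ∘ cc j e) ∘ cc j' false = cc j' false ∘ cc j e := by
  funext x t; simp only [Function.comp, cc]; grind

theorem cc_uu1 (j : ℕ) (e : Bool) :
    (cc j e ∘ uu (j + 1) true) ∘ uu j false = cc j e ∘ uu (j + 1) true := by
  funext x t; simp only [Function.comp, cc, uu]; grind

theorem cc_uu0 (j : ℕ) (e : Bool) : cc j e ∘ uu (j + 1) false = uu (j + 1) e := by
  funext x t; simp only [Function.comp, cc, uu]; grind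

theorem dd_uu (i : ℕ) (e e' : Bool) : dd 0 e' ∘ uu i e = uu (i + 1) e ∘ dd 0 e' := by
  funext x t; simp only [Function.comp, dd, uu]; grind

theorem uu_dd_same (i : ℕ) (e e' : Bool) : uu i e' ∘ dd i e = dd i e' := by
  funext x t; simp only [Function.comp, dd, uu]; grind

theorem uu_dd_lt {i j : ℕ} (h : i < j) (e : Bool) :
    (uu i false ∘ dd j e) ∘ uu i false = uu i false ∘ dd j e := by
  funext x t; simp only [Function.comp, dd, uu]; grind

theorem uu_dd_gt {i j : ℕ} (h : j ≤ i) (e : Bool) :
    (uu (i + 1) false ∘ dd j e) ∘ uu i false = uu (i + 1) false ∘ dd j e := by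
  funext x t; simp only [Function.comp, dd, uu]; grind

theorem cc_dd0 (j : ℕ) : cc j false ∘ dd j false = dd (j + 1) false := by
  funext x t; simp only [Function.comp, dd, cc]; grind

theorem cc_dd0' (j : ℕ) : cc j false ∘ dd (j + 1) false = dd (j + 1) false := by
  funext x t; simp only [Function.comp, dd, cc]; grind

theorem cc_dd1 (j : ℕ) : (cc j false ∘ dd j true) ∘ uu j false = cc j false ∘ dd j true := by
  funext x t; simp only [Function.comp, dd, cc, uu]; grind

theorem cc_dd1' (j : ℕ) :
    (cc j false ∘ dd (j + 1) true) ∘ uu j false = cc j false ∘ dd (j + 1) true := by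
  funext x t; simp only [Function.comp, dd, cc, uu]; grind

theorem cc_dd_lt {i j : ℕ} (h : i ≤ j) (e : Bool) :
    (cc (j + 1) false ∘ dd i e) ∘ cc j false = cc (j + 1) false ∘ dd i e := by
  funext x t; simp only [Function.comp, dd, cc]; grind

theorem cc_dd_gt {i j : ℕ} (h : j + 1 < i) (e : Bool) :
    (cc j false ∘ dd i e) ∘ cc j false = cc j false ∘ dd i e := by
  funext x t; simp only [Function.comp, dd, cc]; grind

theorem dd_dd {i j : ℕ} (h : i ≤ j) (e e' : Bool) : dd i e ∘ dd j e' = dd (j + 1) e' ∘ dd i e := by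
  funext x t; simp only [Function.comp, dd]; grind

theorem dd_ss {i : ℕ} {e : Bool} {x : Om} (h : x i = e) : dd i e (ss i x) = x := by
  funext t; simp only [dd, ss]; grind

end Pool.Agent.VRCube
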