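import Pool.Agent.Lib.MP_e813cc_gt.Wedge

set_option autoImplicit false

open Finset

namespace Pool.Agent.VRCube

section Spectral

variable {k : Type*} [Field k] {C : Type*} [AddCommGroup C] [Module k C]
  (D : C →ₗ[k] C) (F : ℤ → ℤ → Submodule k C)

/-- `Z^i_p` in total degree `m`: chains in `F_p` whose boundary lies in `F_{p-i}`.
Here `D` is the boundary operator and `F p m` is the group of `m`-chains of filtration `≤ p`. -/
def pageZ (i p m : ℤ) : Submodule k C := F p m ⊓ (F (p - i) (m - 1)).comap D

/-- The denominator `Z^{i-1}_{p-1} + D Z^{i-1}_{p+i-1}` of page `i`. -/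
def pageB (i p m : ℤ) : Submodule k C :=
  pageZ D F (i - 1) (p - 1) m ⊔ (pageZ D F (i - 1) (p + i - 1) (m + 1)).map D

/-- The term `E^i_{p, m-p}` of the spectral sequence of the filtered complex. -/
def pageE (i p m : ℤ) :=
  pageZ D F i p m ⧸ (pageB D F i p m).submoduleOf (pageZ D F i p m)

instance (i p m : ℤ) : AddCommGroup (pageE D F i p m) := Submodule.Quotient.addCommGroup _

instance (i p m : ℤ) : Module k (pageE D F i p m) := Submodule.Quotient.module _

theorem map_pageZ (hD : ∀ x, D (D x) = 0) (i p m : ℤ) :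
    ∀ x ∈ pageZ D F i p m, D x ∈ pageZ D F i (p - i) (m - 1) :=
  fun x hx => ⟨hx.2, by rw [SetLike.mem_coe, Submodule.mem_comap, hD]; exact zero_mem _⟩

theorem map_pageB (hD : ∀ x, D (D x) = 0) (i p m : ℤ) :
    ∀ x ∈ pageB D F i p m, D x ∈ pageB D F i (p - i) (m - 1) := by
  intro x hx
  obtain ⟨a, ha, _, ⟨b, -, rfl⟩, rfl⟩ := Submodule.mem_sup.mp hx
  rw [map_add, hD, add_zero]
  refine Submodule.mem_sup_right ⟨a, ?_, rfl⟩
  rwa [show p - i + i - 1 = p - 1 by ring, show m - 1 + 1 = m by ring]

/-- The differential `d^i : E^i_{p,q} → E^i_{p-i,q+i-1}` (with `m = p + q`), induced by `D`. -/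
def pageD (hD : ∀ x, D (D x) = 0) (i p m : ℤ) :
    pageE D F i p m →ₗ[k] pageE D F i (p - i) (m - 1) :=
  Submodule.mapQ _ _ (D.restrict (map_pageZ D F hD i p m))
    fun x hx => map_pageB D F hD i p m x hx

/-- The spectral sequence degenerates at page `s`: every `d^i` on `E^i_{p,q}`, `i ≥ s`, is zero. -/
def DegeneratesAt (hD : ∀ x, D (D x) = 0) (s : ℤ) : Prop :=
  ∀ i p q : ℤ, s ≤ i → pageD D F hD i p (p + q) = 0

end Spectral

variable (k : Type*) [Field k]

/-- The simplicial boundary on chains (finitely supported functions on finite vertex sets), each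
simplex being oriented by the linear order of the vertices; vertices have boundary zero. -/
noncomputable def bd (X : Type*) [LinearOrder X] : (Finset X →₀ k) →ₗ[k] (Finset X →₀ k) :=
  Finsupp.linearCombination k fun σ =>
    if σ.card ≤ 1 then 0
    else ∑ v ∈ σ, (-1 : k) ^ (σ.filter (· < v)).card • Finsupp.single (σ.erase v) (1 : k)

theorem Phi_bd_single {X : Type*} [LinearOrder X] {σ : Finset X} (h : 1 < σ.card) (c : k) :
    Phi k (bd k X (Finsupp.single σ c)) = del k X (Phi k (Finsupp.single σ c)) := by
  rw [bd, Finsupp.linearCombination_single, if_neg (not_le.mpr h), map_smul, map_sum, Phi_single,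
    map_smul, del_W]
  simp only [map_smul, Phi_single, one_smul]

theorem bd_bd (X : Type*) [LinearOrder X] (x : Finset X →₀ k) : bd k X (bd k X x) = 0 := by
  have : bd k X ∘ₗ bd k X = 0 := by
    refine Finsupp.lhom_ext' fun σ => LinearMap.ext_ring ?_
    change bd k X (bd k X (Finsupp.single σ 1)) = 0
    by_cases h1 : σ.card ≤ 1
    · conv_lhs => enter [2]; rw [bd, Finsupp.linearCombination_single, if_pos h1, smul_zero]
      exact map_zero _
    · have h2 : bd k X (Finsupp.single σ 1) =
          ∑ v ∈ σ, (-1 : k) ^ (σ.filter (· < v)).card • Finsupp.single (σ.erase v) (1 : k) := by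
        rw [bd, Finsupp.linearCombination_single, if_neg h1, one_smul]
      by_cases h3 : σ.card ≤ 2
      · rw [h2, map_sum]
        refine Finset.sum_eq_zero fun v hv => ?_
        rw [map_smul, bd, Finsupp.linearCombination_single,
          if_pos (by rw [card_erase_of_mem hv]; omega), smul_zero, smul_zero]
      · apply (Phi k).injective
        have h4 : Phi k (bd k X (bd k X (Finsupp.single σ 1))) =
            del k X (Phi k (bd k X (Finsupp.single σ 1))) := by
          rw [h2]
          simp only [map_sum, map_smul]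
          refine Finset.sum_congr rfl fun v hv => ?_
          rw [Phi_bd_single k (by rw [card_erase_of_mem hv]; omega)]
        rw [h4, Phi_bd_single k (by omega), del_del, map_zero]
  exact congrArg (fun T : (Finset X →₀ k) →ₗ[k] (Finset X →₀ k) => T x) this

/-- A simplex of the Vietoris-Rips complex of the `n`-cube at scale `r`: a nonempty set of binary
words with pairwise Hamming distance at most `r` (words are ordered lexicographically). -/
def IsSimplex {n : ℕ} (r : ℕ) (σ : Finset (Lex (Fin n → Bool))) : Prop :=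
  σ.Nonempty ∧ ∀ u ∈ σ, ∀ v ∈ σ, hammingDist (ofLex u) (ofLex v) ≤ r

/-- The number of coordinates that are not constant on the vertices of `σ`. -/
def cubicDim {n : ℕ} (σ : Finset (Lex (Fin n → Bool))) : ℕ :=
  (univ.filter fun i : Fin n => ∃ u ∈ σ, ∃ v ∈ σ, ofLex u i ≠ ofLex v i).card

/-- `C_m(X^{n,r}_p)`: chains supported on `m`-simplices of cubic dimension at most `p`. -/
noncomputable def chains (n r : ℕ) (p m : ℤ) :
    Submodule k (Finset (Lex (Fin n → Bool)) →₀ k) :=
  Finsupp.supported k k {σ | IsSimplex r σ ∧ (σ.card : ℤ) = m + 1 ∧ (cubicDim σ : ℤ) ≤ p}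

end Pool.Agent.VRCube
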