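import Pool.Agent.Lib.MP_e813cc_gt.Fold

set_option autoImplicit false

open Finset

namespace Pool.Agent.VRCube

variable (k : Type*) [Field k] (r : ℕ)

def Std (q : ℕ) (x : Om) : Prop := ∀ i, q ≤ i → x i = false

def Close (x y : Om) : Prop := ∃ T : Finset ℕ, T.card ≤ r ∧ ∀ i, x i ≠ y i → i ∈ T

/-- Lists of vertices forming a simplex of the standard `q`-cube. -/
def SL (q len : ℕ) (l : List Om) : Prop :=
  l.length = len ∧ (∀ x ∈ l, Std q x) ∧ ∀ x ∈ l, ∀ y ∈ l, Close r x y

def LowL (q len : ℕ) (l : List Om) : Prop := SL r q len l ∧ ∃ i < q, ∃ e, ∀ x ∈ l, x i = e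

noncomputable def AA (q len : ℕ) : Submodule k (Lam k Om) := sp k (SL r q len)

noncomputable def Low (q len : ℕ) : Submodule k (Lam k Om) := sp k (LowL r q len)

variable {r}

theorem SL.map {q q' len : ℕ} {l : List Om} (h : SL r q len l) {f : Om → Om}
    (h1 : ∀ x, Std q x → Std q' (f x)) (h2 : ∀ x y, Close r x y → Close r (f x) (f y)) :
    SL r q' len (l.map f) := by
  refine ⟨by simpa using h.1, ?_, ?_⟩
  · intro x hx
    obtain ⟨x', hx', rfl⟩ := List.mem_map.mp hx
    exact h1 x' (h.2.1 x' hx')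
  · intro x hx y hy
    obtain ⟨x', hx', rfl⟩ := List.mem_map.mp hx
    obtain ⟨y', hy', rfl⟩ := List.mem_map.mp hy
    exact h2 x' y' (h.2.2 x' hx' y' hy')

theorem close_of (f : Om → Om) (φ : ℕ → ℕ)
    (h : ∀ x y t, f x t ≠ f y t → ∃ i, x i ≠ y i ∧ φ i = t) (x y : Om) (hxy : Close r x y) :
    Close r (f x) (f y) := by
  obtain ⟨T, hT, hT'⟩ := hxy
  refine ⟨T.image φ, card_image_le.trans hT, fun t ht => ?_⟩
  obtain ⟨i, hi, rfl⟩ := h x y t ht
  exact mem_image_of_mem _ (hT' i hi)

theorem close_uu (i : ℕ) (e : Bool) (x y : Om) (h : Close r x y) :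
    Close r (uu i e x) (uu i e y) :=
  close_of _ id (fun x y t ht => ⟨t, by simp only [uu] at ht; grind, rfl⟩) x y h

theorem close_cc (j : ℕ) (e : Bool) (x y : Om) (h : Close r x y) :
    Close r (cc j e x) (cc j e y) := by
  refine close_of _ (fun i => if i = j + 1 then j else i) (fun x y t ht => ?_) x y h
  simp only [cc] at ht
  by_cases h1 : x t = y t
  · exact ⟨j + 1, by grind, by grind⟩
  · exact ⟨t, h1, by grind⟩

theorem close_ss (i : ℕ) (x y : Om) (h : Close r x y) : Close r (ss i x) (ss i y) := by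
  refine close_of _ (fun t => if t < i then t else t - 1) (fun x y t ht => ?_) x y h
  simp only [ss] at ht
  by_cases h1 : t < i
  · exact ⟨t, by grind, by grind⟩
  · exact ⟨t + 1, by grind, by grind⟩

theorem uu_mem_Low {q len i : ℕ} (hi : i < q) (e : Bool) {a : Lam k Om} (ha : a ∈ AA k r q len) :
    act k (uu i e) a ∈ Low k r q len := by
  refine act_mem k _ (fun l hl => ⟨hl.map (fun x hx t ht => ?_) (close_uu i e), i, hi, e, ?_⟩) ha
  · have := hx t ht
    simp only [uu]; grind
  · intro x hx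
    obtain ⟨x, _, rfl⟩ := List.mem_map.mp hx
    simp [uu]

theorem Low_le (q len : ℕ) : Low k r q len ≤ AA k r q len :=
  sp_le k fun _ hl => wedge_mem k hl.1

theorem cc_mem_AA {q len j : ℕ} (hj : j + 1 < q) (e : Bool) {a : Lam k Om}
    (ha : a ∈ AA k r q len) : act k (cc j e) a ∈ AA k r q len := by
  refine act_mem k _ (fun l hl => hl.map (fun x hx t ht => ?_) (close_cc j e)) ha
  have := hx t ht
  simp only [cc]; grind

theorem fold_AA {q len : ℕ} {a : Lam k Om} (ha : a ∈ AA k r q len) :
    fold k q a ∈ Nm k q ⊓ AA k r q len ∧ a - fold k q a ∈ Low k r q len := by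
  obtain ⟨h1, h2⟩ := fold_spec k (S := AA k r q len)
    (fun i hi a ha => Low_le k q len (uu_mem_Low k hi false ha))
    (fun j hj e a ha => cc_mem_AA k hj e ha) ha
  exact ⟨⟨fold_mem_Nm k q a, h1⟩, Lf_le k (fun i e a h1 _ h3 => uu_mem_Low k h1 e h3) h2⟩

theorem Low_Nm {q len : ℕ} {a : Lam k Om} (ha : a ∈ Low k r (q + 1) len) (hN : a ∈ Nm k (q + 1)) :
    a ∈ (Nm k q ⊓ AA k r q len).map (BB k (q + 1)) := by
  have h1 : a ∈ (AA k r q len).map (act k (dd 0 true)) ⊔ Lf k (q + 1) ⊤ := by
    refine sp_le k (fun l hl => ?_) ha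
    obtain ⟨hl, i, hi, e, he⟩ := hl
    by_cases h : i ≠ 0 ∨ e = false
    · refine Submodule.mem_sup_right ?_
      have : wedge k l = act k (uu i e) (wedge k l) := by
        rw [act_wedge]
        congr 1
        refine (List.map_id l).symm.trans (List.map_congr_left fun x hx => ?_)
        funext t
        have := he x hx
        simp only [uu, id]; grind
      rw [this]
      exact mem_Lf k hi h Submodule.mem_top
    · have h0 : i = 0 := by grind
      have h1 : e = true := by grind
      subst h0 h1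
      refine Submodule.mem_sup_left ⟨wedge k (l.map (ss 0)), wedge_mem k
        (hl.map (fun x hx t ht => ?_) (close_ss 0)), ?_⟩
      · simpa [ss] using hx (t + 1) (by omega)
      · rw [act_wedge, List.map_map]
        congr 1
        refine (List.map_congr_left fun x hx => ?_).trans (List.map_id l)
        exact dd_ss (he x hx)
  obtain ⟨_, ⟨b, hb, rfl⟩, c, hc, hbc⟩ := Submodule.mem_sup.mp h1
  refine eq_BB k (fun i hi a ha => Low_le k q len (uu_mem_Low k hi false ha))
    (fun j hj e a ha => cc_mem_AA k hj e ha) hN hb ?_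
  rw [← hbc, add_sub_cancel_left]
  exact hc

theorem del_AA {q len : ℕ} {a : Lam k Om} (ha : a ∈ AA k r q (len + 1)) :
    del k Om a ∈ AA k r q len :=
  del_mem k (fun l l' hl hs hlen => ⟨by have := hl.1; omega, fun x hx => hl.2.1 x (hs.subset hx),
    fun x hx y hy => hl.2.2 x (hs.subset hx) y (hs.subset hy)⟩) ha

theorem del_Nm {q q' len : ℕ} {a : Lam k Om} (ha : a ∈ AA k r q' len) (hN : a ∈ Nm k q) :
    del k Om a ∈ Nm k q :=
  ⟨fun i hi => by rw [act_del k _ ha, hN.1 i hi, map_zero],
    fun j hj => by rw [act_del k _ ha, hN.2 j hj, map_zero]⟩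

/-! ### The target cube -/

/-- Vertices of the `n`-cube, ordered lexicographically. -/
abbrev Vt (n : ℕ) := Lex (Fin n → Bool)

variable {n : ℕ}

/-- The coordinates that are not constant on a set of vertices. -/
def vary (σ : Finset (Vt n)) : Finset (Fin n) :=
  univ.filter fun i => ∃ u ∈ σ, ∃ v ∈ σ, ofLex u i ≠ ofLex v i

theorem mem_vary {l : List (Vt n)} {i : Fin n} :
    i ∈ vary l.toFinset ↔ ∃ u ∈ l, ∃ v ∈ l, ofLex u i ≠ ofLex v i := by
  simp [vary]

variable (r) in
def TL (p len : ℕ) (l : List (Vt n)) : Prop :=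
  l.length = len ∧ (∀ u ∈ l, ∀ v ∈ l, hammingDist (ofLex u) (ofLex v) ≤ r) ∧
    (vary l.toFinset).card ≤ p

variable (r n) in
noncomputable def TT' (p len : ℕ) : Submodule k (Lam k (Vt n)) := sp k (TL r p len)

/-- `f` is the standard parametrisation of a `q`-dimensional face with free coordinates `e`. -/
structure IsFaceE (q : ℕ) (f : Om → Vt n) (e : Fin q → Fin n) : Prop where
  mono : StrictMono e
  free : ∀ x j, ofLex (f x) (e j) = x j
  const : ∀ i, i ∉ Set.range e → ∀ x y, ofLex (f x) i = ofLex (f y) i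

def IsFace (q : ℕ) (f : Om → Vt n) : Prop := ∃ e, IsFaceE q f e

theorem IsFace.comp_dd {q i : ℕ} {f : Om → Vt n} (h : IsFace (q + 1) f) (hi : i < q + 1)
    (b : Bool) : IsFace q (f ∘ dd i b) := by
  obtain ⟨e, h⟩ := h
  refine ⟨e ∘ (⟨i, hi⟩ : Fin (q + 1)).succAbove, h.mono.comp (Fin.strictMono_succAbove _), ?_, ?_⟩
  · intro x j
    rw [Function.comp_apply, Function.comp_apply, h.free]
    simp only [dd, Fin.succAbove]
    split_ifs with h1 h2 h3 h2 h3 <;> simp_all [Fin.lt_def] <;> omega
  · intro t ht x y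
    by_cases h1 : t ∈ Set.range e
    · obtain ⟨j, rfl⟩ := h1
      have h2 : j = ⟨i, hi⟩ := by
        by_contra hne
        obtain ⟨j', hj'⟩ := Fin.exists_succAbove_eq hne
        exact ht ⟨j', by rw [Function.comp_apply, hj']⟩
      subst h2
      rw [Function.comp_apply, Function.comp_apply, h.free, h.free]
      simp [dd]
    · exact h.const t h1 _ _

theorem IsFaceE.vary_sub {q : ℕ} {f : Om → Vt n} {e : Fin q → Fin n} (h : IsFaceE q f e)
    {l : List Om} {i : Fin n} (hi : i ∈ vary (l.map f).toFinset) :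
    ∃ j, e j = i ∧ ∃ x ∈ l, ∃ y ∈ l, x j ≠ y j := by
  obtain ⟨u, hu, v, hv, huv⟩ := mem_vary.mp hi
  obtain ⟨x, hx, rfl⟩ := List.mem_map.mp hu
  obtain ⟨y, hy, rfl⟩ := List.mem_map.mp hv
  by_cases h1 : i ∈ Set.range e
  · obtain ⟨j, rfl⟩ := h1
    rw [h.free, h.free] at huv
    exact ⟨j, rfl, x, hx, y, hy, huv⟩
  · exact absurd (h.const i h1 x y) huv

theorem IsFaceE.hamming {q : ℕ} {f : Om → Vt n} {e : Fin q → Fin n} (h : IsFaceE q f e)
    {x y : Om} (hxy : Close r x y) : hammingDist (ofLex (f x)) (ofLex (f y)) ≤ r := by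
  obtain ⟨T, hT, hT'⟩ := hxy
  refine le_trans ?_ hT
  rw [hammingDist]
  have h1 : (univ.filter fun i => ofLex (f x) i ≠ ofLex (f y) i) ⊆
      (univ.filter fun j : Fin q => (j : ℕ) ∈ T).image e := by
    intro i hi
    rw [mem_filter] at hi
    by_cases h1 : i ∈ Set.range e
    · obtain ⟨j, rfl⟩ := h1
      rw [h.free, h.free] at hi
      exact mem_image_of_mem _ (by simpa using hT' j hi.2)
    · exact absurd (h.const i h1 x y) hi.2
  refine (card_le_card h1).trans (card_image_le.trans ?_)
  exact card_le_card_of_injOn Fin.val (fun j hj => by simpa using hj)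
    (fun a _ b _ hab => Fin.ext hab)

theorem face_TL {q p len : ℕ} {f : Om → Vt n} {e : Fin q → Fin n} (h : IsFaceE q f e)
    {l : List Om} (hl : SL r q len l) (hp : (vary (l.map f).toFinset).card ≤ p) :
    TL r p len (l.map f) := by
  refine ⟨by simpa using hl.1, ?_, hp⟩
  intro u hu v hv
  obtain ⟨x, hx, rfl⟩ := List.mem_map.mp hu
  obtain ⟨y, hy, rfl⟩ := List.mem_map.mp hv
  exact h.hamming (hl.2.2 x hx y hy)

theorem face_AA {q len : ℕ} {f : Om → Vt n} (h : IsFace q f) {a : Lam k Om}
    (ha : a ∈ AA k r q len) : act k f a ∈ TT' k r n q len := by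
  obtain ⟨e, h⟩ := h
  refine act_mem k _ (fun l hl => face_TL h hl ?_) ha
  have h1 : vary (l.map f).toFinset ⊆ univ.image e := by
    intro i hi
    obtain ⟨j, rfl, -⟩ := h.vary_sub hi
    exact mem_image_of_mem _ (mem_univ j)
  exact (card_le_card h1).trans (card_image_le.trans (by simp))

theorem face_Low {q len : ℕ} {f : Om → Vt n} (h : IsFace (q + 1) f) {a : Lam k Om}
    (ha : a ∈ Low k r (q + 1) len) : act k f a ∈ TT' k r n q len := by
  obtain ⟨e, h⟩ := h
  refine act_mem k _ (fun l hl => face_TL h hl.1 ?_) ha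
  obtain ⟨i, hi, b, hb⟩ := hl.2
  have h1 : vary (l.map f).toFinset ⊆ (univ.erase ⟨i, hi⟩).image e := by
    intro t ht
    obtain ⟨j, rfl, x, hx, y, hy, hxy⟩ := h.vary_sub ht
    refine mem_image_of_mem _ (mem_erase.mpr ⟨?_, mem_univ j⟩)
    rintro rfl
    exact hxy ((hb x hx).trans (hb y hy).symm)
  exact (card_le_card h1).trans (card_image_le.trans (by simp))

/-- Retraction of the cube onto the standard `q`-cube. -/
def retr {q : ℕ} (e : Fin q → Fin n) (v : Vt n) : Om :=
  fun j => if h : j < q then ofLex v (e ⟨j, h⟩) else false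

theorem IsFaceE.retr_apply {q : ℕ} {f : Om → Vt n} {e : Fin q → Fin n} (h : IsFaceE q f e)
    {x : Om} (hx : Std q x) : retr e (f x) = x := by
  funext j
  simp only [retr]
  split_ifs with h1
  · exact h.free x ⟨j, h1⟩
  · exact (hx j (by omega)).symm

theorem exists_face {p len : ℕ} (hp : p ≤ n) {l : List (Vt n)} (hl : TL r p (len + 1) l) :
    ∃ f l', IsFace p f ∧ SL r p (len + 1) l' ∧ l'.map f = l := by
  obtain ⟨S, hS, -, hSc⟩ := Finset.exists_subsuperset_card_eq (subset_univ (vary l.toFinset))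
    hl.2.2 (by simpa using hp)
  obtain ⟨v0, hv0⟩ : ∃ v0, v0 ∈ l := List.exists_mem_of_length_pos (by rw [hl.1]; omega)
  let e : Fin p → Fin n := S.orderEmbOfFin hSc
  have he : Set.range e = S := Finset.range_orderEmbOfFin S hSc
  let f : Om → Vt n := fun x => toLex fun i =>
    if h : i ∈ S then x ((S.orderIsoOfFin hSc).symm ⟨i, h⟩) else ofLex v0 i
  have hf : IsFaceE p f e := by
    refine ⟨(S.orderEmbOfFin hSc).strictMono, fun x j => ?_, fun i hi x y => ?_⟩
    · have h1 : e j ∈ S := Finset.orderEmbOfFin_mem S hSc j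
      have h2 : (⟨e j, h1⟩ : S) = S.orderIsoOfFin hSc j := Subtype.ext (by simp [e])
      simp only [f, ofLex_toLex, dif_pos h1, h2, OrderIso.symm_apply_apply]
    · rw [he] at hi
      simp only [f, ofLex_toLex, dif_neg (show i ∉ S from hi)]
  refine ⟨f, l.map (retr e), ⟨e, hf⟩, ⟨by simpa using hl.1, ?_, ?_⟩, ?_⟩
  · intro x hx i hi
    obtain ⟨v, _, rfl⟩ := List.mem_map.mp hx
    simp only [retr, dif_neg (not_lt.mpr hi)]
  · intro x hx y hy
    obtain ⟨u, hu, rfl⟩ := List.mem_map.mp hx
    obtain ⟨v, hv, rfl⟩ := List.mem_map.mp hy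
    refine ⟨(univ.filter fun j : Fin p => ofLex u (e j) ≠ ofLex v (e j)).image Fin.val,
      card_image_le.trans (le_trans ?_ (hl.2.1 u hu v hv)), fun i hi => ?_⟩
    · rw [hammingDist]
      exact card_le_card_of_injOn e (fun j hj => by simpa using hj) hf.mono.injective.injOn
    · simp only [retr] at hi
      split_ifs at hi with h1
      · exact mem_image.mpr ⟨⟨i, h1⟩, by simpa using hi, rfl⟩
      · exact absurd rfl hi
  · rw [List.map_map]
    refine (List.map_congr_left fun v hv => ?_).trans (List.map_id l)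
    apply ofLex.injective
    funext i
    by_cases h1 : i ∈ Set.range e
    · obtain ⟨j, rfl⟩ := h1
      rw [Function.comp_apply, hf.free]
      simp [retr]
    · rw [he] at h1
      simp only [Function.comp_apply, f, ofLex_toLex, dif_neg (show i ∉ S from h1), id]
      by_contra hne
      exact h1 (hS (mem_vary.mpr ⟨v0, hv0, v, hv, hne⟩))

/-- The operator extracting the component along a face. -/
theorem exists_extract {q len : ℕ} {f : Om → Vt n} (hf : IsFace (q + 1) f) :
    ∃ R : Lam k (Vt n) →ₗ[k] Lam k Om,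
      (∀ a ∈ AA k r (q + 1) len, a - R (act k f a) ∈ Low k r (q + 1) len) ∧
      (∀ f', IsFace (q + 1) f' → f' ≠ f → ∀ a ∈ AA k r (q + 1) len, R (act k f' a) = 0) ∧
      ∀ x ∈ TT' k r n q len, R x = 0 := by
  classical
  obtain ⟨e, hf⟩ := hf
  let S : Finset (Vt n) → Prop := fun σ => (∀ j, e j ∈ vary σ) ∧ ∃ x, f x ∈ σ
  refine ⟨act k (retr e) ∘ₗ proj k S, ?_, ?_, ?_⟩
  · intro a ha
    refine map_mem k (LinearMap.id - (act k (retr e) ∘ₗ proj k S) ∘ₗ act k f) (fun l hl => ?_) ha
    simp only [LinearMap.sub_apply, LinearMap.id_apply, LinearMap.comp_apply, act_wedge, proj_wedge]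
    split_ifs with h1
    · have h2 : l.map (retr e ∘ f) = l :=
        (List.map_congr_left fun x hx => hf.retr_apply (hl.2.1 x hx)).trans (List.map_id l)
      rw [act_wedge, List.map_map, h2, sub_self]
      exact zero_mem _
    · rw [map_zero, sub_zero]
      refine wedge_mem k ⟨hl, ?_⟩
      by_contra hcon
      push Not at hcon
      apply h1
      obtain ⟨x0, hx0, -⟩ := hcon 0 (by omega) true
      refine ⟨fun j => ?_, x0, List.mem_toFinset.mpr (List.mem_map_of_mem hx0)⟩
      obtain ⟨y, hy, hxy⟩ := hcon j j.2 (x0 j)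
      refine mem_vary.mpr ⟨f y, List.mem_map_of_mem hy, f x0, List.mem_map_of_mem hx0, ?_⟩
      rw [hf.free, hf.free]
      exact hxy
  · rintro f' ⟨e', hf'⟩ hne a ha
    refine map_mem k (S := ⊥) ((act k (retr e) ∘ₗ proj k S) ∘ₗ act k f') (fun l hl => ?_) ha
    simp only [LinearMap.comp_apply, act_wedge, proj_wedge]
    rw [if_neg, map_zero]
    · exact zero_mem _
    · rintro ⟨h1, x, hx⟩
      apply hne
      have h2 : univ.image e ⊆ univ.image e' := by
        intro i hi
        obtain ⟨j, -, rfl⟩ := mem_image.mp hi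
        obtain ⟨j', hj', -⟩ := hf'.vary_sub (h1 j)
        exact mem_image.mpr ⟨j', mem_univ _, hj'⟩
      have h3 : univ.image e = univ.image e' := eq_of_subset_of_card_le h2 (by
        rw [card_image_of_injective _ hf.mono.injective,
          card_image_of_injective _ hf'.mono.injective])
      have h4 : e = e' := by
        rw [← hf.mono.range_inj hf'.mono]
        simpa using congrArg (fun s : Finset (Fin n) => (s : Set (Fin n))) h3
      subst h4
      obtain ⟨y, -, hy⟩ : ∃ y ∈ l, f' y = f x := List.mem_map.mp (List.mem_toFinset.mp hx)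
      funext z
      apply ofLex.injective
      funext i
      by_cases h5 : i ∈ Set.range e
      · obtain ⟨j, rfl⟩ := h5
        rw [hf.free, hf'.free]
      · rw [hf'.const i h5 z y, hy, hf.const i h5 z x]
  · intro x hx
    refine map_mem k (S := ⊥) (act k (retr e) ∘ₗ proj k S) (fun l hl => ?_) hx
    simp only [LinearMap.comp_apply, proj_wedge]
    rw [if_neg, map_zero]
    · exact zero_mem _
    · rintro ⟨h1, -⟩
      have h2 : univ.image e ⊆ vary l.toFinset := by
        intro i hi
        obtain ⟨j, -, rfl⟩ := mem_image.mp hi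
        exact h1 j
      have h3 := (card_le_card h2).trans hl.2.2
      rw [card_image_of_injective _ hf.mono.injective] at h3
      simp at h3

end Pool.Agent.VRCube
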