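import Pool.Agent.Lib.MP_e813cc_gt.Main
import Pool.Agent.Lib.MP_e813cc_gt.Defs

set_option autoImplicit false

open Finset

namespace Pool.Agent.VRCube

variable (k : Type*) [Field k] {n r : ℕ}

theorem chains_map {U : Type*} [AddCommGroup U] [Module k U] {p m : ℤ} {T : Submodule k U}
    (L : (Finset (Vt n) →₀ k) →ₗ[k] U)
    (h : ∀ σ, IsSimplex r σ → (σ.card : ℤ) = m + 1 → (cubicDim σ : ℤ) ≤ p →
      L (Finsupp.single σ 1) ∈ T) {x : Finset (Vt n) →₀ k} (hx : x ∈ chains k n r p m) :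
    L x ∈ T := by
  rw [chains, Finsupp.supported_eq_span_single] at hx
  refine (Submodule.span_le (p := T.comap L)).mpr ?_ hx
  rintro _ ⟨σ, hσ, rfl⟩
  exact h σ hσ.1 hσ.2.1 hσ.2.2

theorem Phi_chains {p len : ℕ} {p' m : ℤ} (hp : p' ≤ p) (hm : m + 1 = len)
    {x : Finset (Vt n) →₀ k} (hx : x ∈ chains k n r p' m) : Phi k x ∈ TT' k r n p len := by
  refine chains_map k (Phi k).toLinearMap (fun σ h1 h2 h3 => ?_) hx
  rw [LinearEquiv.coe_coe, Phi_single, one_smul]
  refine wedge_mem k ⟨?_, ?_, ?_⟩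
  · rw [Finset.length_sort]; omega
  · simpa using h1.2
  · have : (σ.sort).toFinset = σ := by ext; simp
    rw [this]
    change cubicDim σ ≤ p
    omega

theorem chains_of_TT' {p len : ℕ} {p' m : ℤ} (hp : (p : ℤ) ≤ p') (hm : m = len)
    {y : Lam k (Vt n)} (hy : y ∈ TT' k r n p (len + 1)) : (Phi k).symm y ∈ chains k n r p' m := by
  refine map_mem k (Phi k).symm.toLinearMap (fun l hl => ?_) hy
  by_cases hn : l.Nodup
  · obtain ⟨c, hc⟩ := wedge_eq_W k l
    rw [hc, ← Phi_single, LinearEquiv.coe_coe, LinearEquiv.symm_apply_apply]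
    refine Finsupp.single_mem_supported _ _ ⟨⟨?_, by simpa using hl.2.1⟩, ?_, ?_⟩
    · rw [← card_pos, List.toFinset_card_of_nodup hn, hl.1]; omega
    · rw [List.toFinset_card_of_nodup hn, hl.1]; omega
    · have : cubicDim l.toFinset ≤ p := hl.2.2
      omega
  · rw [wedge_eq_zero k hn, map_zero]
    exact zero_mem _

theorem Phi_bd {p m : ℤ} (hm : 1 ≤ m) {x : Finset (Vt n) →₀ k} (hx : x ∈ chains k n r p m) :
    Phi k (bd k (Vt n) x) = del k (Vt n) (Phi k x) := by
  have := chains_map k (T := ⊥)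
    ((Phi k).toLinearMap ∘ₗ bd k (Vt n) - del k (Vt n) ∘ₗ (Phi k).toLinearMap)
    (fun σ _ h2 _ => by
      simp only [LinearMap.sub_apply, LinearMap.comp_apply, LinearEquiv.coe_coe]
      rw [Phi_bd_single k (by omega), sub_self]
      exact zero_mem _) hx
  simpa [sub_eq_zero] using this

theorem main_chains {p m : ℤ} {x : Finset (Vt n) →₀ k} (hx : x ∈ chains k n r p m)
    (hdx : bd k (Vt n) x ∈ chains k n r (p - 2) (m - 1)) :
    ∃ y ∈ chains k n r (p - 1) m, bd k (Vt n) y = bd k (Vt n) x := by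
  by_cases hm : m ≤ 0
  · refine ⟨0, zero_mem _, ?_⟩
    rw [map_zero, eq_comm]
    refine chains_map k (T := ⊥) (bd k (Vt n)) (fun σ _ h2 _ => ?_) hx
    rw [bd, Finsupp.linearCombination_single, if_pos (by omega), smul_zero]
    exact zero_mem _
  by_cases hp : p < 2
  · refine ⟨0, zero_mem _, ?_⟩
    rw [map_zero, eq_comm]
    exact chains_map k (T := ⊥) LinearMap.id (fun σ _ _ h3 => by omega) hdx
  by_cases hn : (n : ℤ) < p
  · refine ⟨x, chains_map k LinearMap.id (fun σ h1 h2 _ => ?_) hx, rfl⟩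
    refine Finsupp.single_mem_supported _ _ ⟨h1, h2, ?_⟩
    have : cubicDim σ ≤ n := (card_le_univ _).trans (by simp)
    omega
  obtain ⟨q, rfl⟩ : ∃ q : ℕ, p = q + 2 := ⟨(p - 2).toNat, by omega⟩
  obtain ⟨len, rfl⟩ : ∃ len : ℕ, m = len := ⟨m.toNat, by omega⟩
  have h1 : Phi k x ∈ TT' k r n (q + 2) (len + 1) := Phi_chains k (by omega) (by omega) hx
  have h2 : del k (Vt n) (Phi k x) ∈ TT' k r n q len := by
    rw [← Phi_bd k (by omega) hx]
    exact Phi_chains k (by omega) (by omega) hdx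
  obtain ⟨y, hy, hxy⟩ := main_lam k (by omega) h1 h2
  have h3 : (Phi k).symm y ∈ chains k n r (q + 2 - 1) len := chains_of_TT' k (by omega) rfl hy
  refine ⟨_, h3, (Phi k).injective ?_⟩
  rw [Phi_bd k (by omega) h3, Phi_bd k (by omega) hx, LinearEquiv.apply_symm_apply, hxy]

theorem chains_mono {p p' m : ℤ} (h : p ≤ p') : chains k n r p m ≤ chains k n r p' m :=
  Finsupp.supported_mono fun _ hσ => ⟨hσ.1, hσ.2.1, hσ.2.2.trans h⟩

theorem pageD_eq_zero (i p m : ℤ) (hi : 2 ≤ i) :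
    pageD (bd k (Vt n)) (chains k n r) (bd_bd k (Vt n)) i p m = 0 := by
  refine LinearMap.ext fun z => ?_
  obtain ⟨x, rfl⟩ := Submodule.Quotient.mk_surjective _ z
  refine (Submodule.Quotient.mk_eq_zero _).mpr ?_
  obtain ⟨y, hy, hxy⟩ := main_chains k x.2.1 (chains_mono k (by omega) x.2.2)
  refine Submodule.mem_sup_right ⟨y, ⟨?_, ?_⟩, hxy⟩
  · rwa [show p - i + i - 1 = p - 1 by ring, show m - 1 + 1 = m by ring]
  · rw [SetLike.mem_coe, Submodule.mem_comap, hxy, show p - i + i - 1 - (i - 1) = p - i by ring,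
      show m - 1 + 1 - 1 = m - 1 by ring]
    exact x.2.2

end Pool.Agent.VRCube
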