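import Pool.Agent.Lib.MP_e813cc_gt.Cube

set_option autoImplicit false

open Finset

namespace Pool.Agent.VRCube

variable (k : Type*) [Field k]

/-- Normalised elements: killed by all degeneracies and connections of the `q`-cube. -/
def Nm (q : ℕ) : Submodule k (Lam k Om) where
  carrier := {a | (∀ i < q, act k (uu i false) a = 0) ∧ ∀ j, j + 1 < q → act k (cc j false) a = 0}
  add_mem' := fun {a b} ha hb => ⟨fun i hi => by rw [map_add, ha.1 i hi, hb.1 i hi, add_zero],
    fun j hj => by rw [map_add, ha.2 j hj, hb.2 j hj, add_zero]⟩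
  zero_mem' := ⟨fun _ _ => map_zero _, fun _ _ => map_zero _⟩
  smul_mem' := fun c {a} ha => ⟨fun i hi => by rw [map_smul, ha.1 i hi, smul_zero],
    fun j hj => by rw [map_smul, ha.2 j hj, smul_zero]⟩

noncomputable def PP : ℕ → Lam k Om →ₗ[k] Lam k Om
  | 0 => LinearMap.id
  | i + 1 => PP i - act k (uu i false) ∘ₗ PP i

noncomputable def TT (q : ℕ) : ℕ → Lam k Om →ₗ[k] Lam k Om
  | 0 => PP k q
  | j + 1 => TT q j + act k (cc j true) ∘ₗ TT q j - act k (cc j false) ∘ₗ TT q j

/-- The folding projection. -/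
noncomputable def fold (q : ℕ) : Lam k Om →ₗ[k] Lam k Om := TT k q (q - 1)

theorem PP_succ (i : ℕ) (a : Lam k Om) : PP k (i + 1) a = PP k i a - act k (uu i false) (PP k i a) :=
  rfl

theorem TT_succ (q j : ℕ) (a : Lam k Om) : TT k q (j + 1) a =
    TT k q j a + act k (cc j true) (TT k q j a) - act k (cc j false) (TT k q j a) := rfl

theorem uu_PP (q : ℕ) (a : Lam k Om) : ∀ i < q, act k (uu i false) (PP k q a) = 0 := by
  induction q with
  | zero => simp
  | succ q ih =>
    intro i hi
    rw [PP_succ, map_sub, act_act]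
    rcases Nat.lt_succ_iff_lt_or_eq.mp hi with h | rfl
    · rw [uu_uu h.ne, ← act_act, ih i h, map_zero, sub_zero]
    · rw [uu_uu_same, sub_self]

theorem uu_step {i j : ℕ} {a : Lam k Om} (ha : act k (uu i false) a = 0) :
    act k (uu i false) (a + act k (cc j true) a - act k (cc j false) a) = 0 := by
  rw [map_sub, map_add, ha, act_act, act_act]
  by_cases h : i = j + 1
  · subst h
    rw [uu_cc_succ, uu_cc_succ]; simp
  · rw [act_eq_zero k (uu_cc h true) ha, act_eq_zero k (uu_cc h false) ha]; simp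

theorem TT_spec (q : ℕ) (a : Lam k Om) (j : ℕ) (hj : j ≤ q) :
    (∀ i < q, act k (uu i false) (TT k q j a) = 0) ∧
      ∀ j' < j, act k (cc j' false) (TT k q j a) = 0 := by
  induction j with
  | zero => exact ⟨uu_PP k q a, by simp⟩
  | succ j ih =>
    obtain ⟨h1, h2⟩ := ih (by omega)
    refine ⟨fun i hi => uu_step k (h1 i hi), fun j' hj' => ?_⟩
    rw [TT_succ, map_sub, map_add, act_act, act_act]
    rcases Nat.lt_succ_iff_lt_or_eq.mp hj' with h | rfl
    · rw [h2 j' h, act_eq_zero k (cc_cc h true) (h2 j' h), act_eq_zero k (cc_cc h false) (h2 j' h)]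
      simp
    · rw [act_eq_zero k (cc_cc1 j') (h1 j' (by omega)), cc_cc0]; simp

theorem fold_mem_Nm (q : ℕ) (a : Lam k Om) : fold k q a ∈ Nm k q :=
  ⟨(TT_spec k q a (q - 1) (by omega)).1, fun j hj => (TT_spec k q a (q - 1) (by omega)).2 j (by omega)⟩

theorem fold_of_mem {q : ℕ} {a : Lam k Om} (ha : a ∈ Nm k q) : fold k q a = a := by
  have h1 : ∀ i ≤ q, PP k i a = a := by
    intro i hi
    induction i with
    | zero => rfl
    | succ i ih => rw [PP_succ, ih (by omega), ha.1 i (by omega), sub_zero]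
  have h2 : ∀ j ≤ q - 1, TT k q j a = a := by
    intro j hj
    induction j with
    | zero => exact h1 q le_rfl
    | succ j ih =>
      rw [TT_succ, ih (by omega), act_eq_zero k (cc_cc0 j true) (ha.2 j (by omega)),
        ha.2 j (by omega)]
      simp
  exact h2 _ le_rfl

theorem TT_zero_of {q j : ℕ} {a : Lam k Om} (h : TT k q j a = 0) : ∀ j', j ≤ j' → TT k q j' a = 0 := by
  intro j' hj'
  induction j', hj' using Nat.le_induction with
  | base => exact h
  | succ j' _ ih => rw [TT_succ, ih]; simp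

theorem PP_uu0 {q i : ℕ} (hi : i < q) (a : Lam k Om) : PP k q (act k (uu i false) a) = 0 := by
  have h1 : ∀ t ≤ i, ∃ b, PP k t (act k (uu i false) a) = act k (uu i false) b := by
    intro t ht
    induction t with
    | zero => exact ⟨a, rfl⟩
    | succ t ih =>
      obtain ⟨b, hb⟩ := ih (by omega)
      refine ⟨b - act k (uu t false) b, ?_⟩
      rw [PP_succ, hb, map_sub, act_act, act_act, uu_uu (by omega : t ≠ i)]
  induction q, hi using Nat.le_induction with
  | base =>
    obtain ⟨b, hb⟩ := h1 i le_rfl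
    rw [PP_succ, hb, act_act, uu_uu_same, sub_self]
  | succ q _ ih => rw [PP_succ, ih]; simp

theorem PP_uu1 {q i : ℕ} (hi : i < q) (a : Lam k Om) :
    ∃ b, (∀ t < q, t ≠ i → act k (uu t false) b = 0) ∧
      PP k q (act k (uu i true) a) = act k (uu i true) b - act k (uu i false) b := by
  have hstep : ∀ (t : ℕ) (b : Lam k Om), (∀ s < t, s ≠ i → act k (uu s false) b = 0) →
      ∀ s < t + 1, s ≠ i → act k (uu s false) (b - act k (uu t false) b) = 0 := by
    intro t b hb s hs hsi
    rw [map_sub, act_act]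
    rcases Nat.lt_succ_iff_lt_or_eq.mp hs with h | rfl
    · rw [uu_uu h.ne, ← act_act, hb s h hsi]; simp
    · rw [uu_uu_same, sub_self]
  have h1 : ∀ t ≤ i, ∃ b, (∀ s < t, s ≠ i → act k (uu s false) b = 0) ∧
      PP k t (act k (uu i true) a) = act k (uu i true) b := by
    intro t ht
    induction t with
    | zero => exact ⟨a, by simp, rfl⟩
    | succ t ih =>
      obtain ⟨b, hb0, hb⟩ := ih (by omega)
      refine ⟨b - act k (uu t false) b, hstep t b hb0, ?_⟩
      rw [PP_succ, hb, map_sub, act_act, act_act, uu_uu (by omega : t ≠ i)]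
  induction q, hi using Nat.le_induction with
  | base =>
    obtain ⟨b, hb0, hb⟩ := h1 i le_rfl
    refine ⟨b, fun t ht hti => hb0 t (by omega) hti, ?_⟩
    rw [PP_succ, hb, act_act, uu_uu_same]
  | succ q hq ih =>
    obtain ⟨b, hb0, hb⟩ := ih
    refine ⟨b - act k (uu q false) b, hstep q b hb0, ?_⟩
    rw [PP_succ, hb, map_sub, map_sub, map_sub, act_act, act_act, act_act, act_act,
      uu_uu (by omega : q ≠ i), uu_uu (by omega : q ≠ i)]
    abel

theorem fold_uu {q i : ℕ} (hi : i < q) {e : Bool} (h : i ≠ 0 ∨ e = false) (a : Lam k Om) :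
    fold k q (act k (uu i e) a) = 0 := by
  cases e with
  | false => exact TT_zero_of k (j := 0) (PP_uu0 k hi a) _ (Nat.zero_le _)
  | true =>
    obtain ⟨j, rfl⟩ : ∃ j, i = j + 1 := ⟨i - 1, by simp at h; omega⟩
    have h1 : ∀ t ≤ j, ∃ b, (∀ s < q, s ≠ j + 1 → act k (uu s false) b = 0) ∧
        TT k q t (act k (uu (j + 1) true) a) =
          act k (uu (j + 1) true) b - act k (uu (j + 1) false) b := by
      intro t ht
      induction t with
      | zero => exact PP_uu1 k hi a
      | succ t ih =>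
        obtain ⟨b, hb0, hb⟩ := ih (by omega)
        refine ⟨b + act k (cc t true) b - act k (cc t false) b,
          fun s hs hsi => uu_step k (hb0 s hs hsi), ?_⟩
        rw [TT_succ, hb]
        simp only [map_sub, map_add, act_act, cc_uu (by omega : t + 1 < j + 1)]
        abel
    obtain ⟨b, hb0, hb⟩ := h1 j le_rfl
    refine TT_zero_of k (j := j + 1) ?_ _ (by omega)
    have hj := hb0 j (by omega) (by omega)
    rw [TT_succ, hb]
    simp only [map_sub, act_act, cc_uu0, act_eq_zero k (cc_uu1 j true) hj,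
      act_eq_zero k (cc_uu1 j false) hj]
    abel

/-- The span of all faces except the distinguished one. -/
noncomputable def Lf (q : ℕ) (S : Submodule k (Lam k Om)) : Submodule k (Lam k Om) :=
  Submodule.span k {x | ∃ i e a, i < q ∧ (i ≠ 0 ∨ e = false) ∧ a ∈ S ∧ act k (uu i e) a = x}

theorem mem_Lf {q i : ℕ} {S : Submodule k (Lam k Om)} (hi : i < q) {e : Bool}
    (h : i ≠ 0 ∨ e = false) {a : Lam k Om} (ha : a ∈ S) : act k (uu i e) a ∈ Lf k q S :=
  Submodule.subset_span ⟨i, e, a, hi, h, ha, rfl⟩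

theorem Lf_le {q : ℕ} {S T : Submodule k (Lam k Om)}
    (h : ∀ i e a, i < q → (i ≠ 0 ∨ e = false) → a ∈ S → act k (uu i e) a ∈ T) : Lf k q S ≤ T := by
  rw [Lf, Submodule.span_le]
  rintro _ ⟨i, e, a, h1, h2, h3, rfl⟩
  exact h i e a h1 h2 h3

theorem fold_Lf {q : ℕ} {a : Lam k Om} (ha : a ∈ Lf k q ⊤) : fold k q a = 0 :=
  Lf_le k (T := LinearMap.ker (fold k q)) (fun _ _ a h1 h2 _ => fold_uu k h1 h2 a) ha

theorem fold_spec {q : ℕ} {S : Submodule k (Lam k Om)}
    (hu : ∀ i < q, ∀ a ∈ S, act k (uu i false) a ∈ S)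
    (hc : ∀ j, j + 1 < q → ∀ e, ∀ a ∈ S, act k (cc j e) a ∈ S) {a : Lam k Om} (ha : a ∈ S) :
    fold k q a ∈ S ∧ a - fold k q a ∈ Lf k q S := by
  have h1 : ∀ i ≤ q, PP k i a ∈ S ∧ a - PP k i a ∈ Lf k q S := by
    intro i hi
    induction i with
    | zero => exact ⟨ha, by simp [PP]⟩
    | succ i ih =>
      obtain ⟨h1, h2⟩ := ih (by omega)
      rw [PP_succ]
      refine ⟨sub_mem h1 (hu i (by omega) _ h1), ?_⟩
      rw [← sub_add]
      exact add_mem h2 (mem_Lf k (by omega) (Or.inr rfl) h1)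
  have h2 : ∀ j ≤ q - 1, TT k q j a ∈ S ∧ a - TT k q j a ∈ Lf k q S := by
    intro j hj
    induction j with
    | zero => exact h1 q le_rfl
    | succ j ih =>
      obtain ⟨h1, h2⟩ := ih (by omega)
      rw [TT_succ]
      refine ⟨sub_mem (add_mem h1 (hc j (by omega) _ _ h1)) (hc j (by omega) _ _ h1), ?_⟩
      have h3 : ∀ e, act k (cc j e) (TT k q j a) ∈ Lf k q S := by
        intro e
        rw [← uu_cc_succ j e e, ← act_act]
        exact mem_Lf k (by omega) (Or.inl (by omega)) (hc j (by omega) _ _ h1)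
      have h4 : a - (TT k q j a + act k (cc j true) (TT k q j a) - act k (cc j false) (TT k q j a))
          = (a - TT k q j a) - act k (cc j true) (TT k q j a) + act k (cc j false) (TT k q j a) := by
        abel
      rw [h4]
      exact add_mem (sub_mem h2 (h3 true)) (h3 false)
  exact h2 _ le_rfl

/-- The cubical coboundary `Q_{q-1} → Q_q`. -/
noncomputable def BB (q : ℕ) : Lam k Om →ₗ[k] Lam k Om :=
  ∑ i ∈ range q, (-1 : k) ^ i • (act k (dd i true) - act k (dd i false))

theorem BB_apply (q : ℕ) (a : Lam k Om) :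
    BB k q a = ∑ i ∈ range q, (-1 : k) ^ i • (act k (dd i true) a - act k (dd i false) a) := by
  simp [BB, LinearMap.sum_apply]

theorem BB_mem_Nm {q : ℕ} {a : Lam k Om} (ha : a ∈ Nm k q) : BB k (q + 1) a ∈ Nm k (q + 1) := by
  constructor
  · intro i hi
    rw [BB_apply, map_sum]
    refine Finset.sum_eq_zero fun t ht => ?_
    rw [mem_range] at ht
    rw [map_smul, map_sub, act_act, act_act]
    rcases lt_trichotomy i t with h | rfl | h
    · rw [act_eq_zero k (uu_dd_lt h true) (ha.1 i (by omega)),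
        act_eq_zero k (uu_dd_lt h false) (ha.1 i (by omega))]
      simp
    · rw [uu_dd_same, uu_dd_same]; simp
    · obtain ⟨i, rfl⟩ : ∃ i', i = i' + 1 := ⟨i - 1, by omega⟩
      rw [act_eq_zero k (uu_dd_gt (by omega : t ≤ i) true) (ha.1 i (by omega)),
        act_eq_zero k (uu_dd_gt (by omega : t ≤ i) false) (ha.1 i (by omega))]
      simp
  · intro j hj
    rw [BB_apply, map_sum]
    rw [Finset.sum_eq_add_of_mem j (j + 1) (by simp; omega) (by simp; omega) (by omega)]
    · simp only [map_smul, map_sub, act_act, cc_dd0, cc_dd0',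
        act_eq_zero k (cc_dd1 j) (ha.1 j (by omega)), act_eq_zero k (cc_dd1' j) (ha.1 j (by omega)),
        pow_succ]
      simp
    · intro t ht hne
      rw [mem_range] at ht
      rw [map_smul, map_sub, act_act, act_act]
      rcases lt_or_gt_of_ne hne.1 with h | h
      · obtain ⟨j, rfl⟩ : ∃ j', j = j' + 1 := ⟨j - 1, by omega⟩
        rw [act_eq_zero k (cc_dd_lt (by omega : t ≤ j) true) (ha.2 j (by omega)),
          act_eq_zero k (cc_dd_lt (by omega : t ≤ j) false) (ha.2 j (by omega))]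
        simp
      · have h' : j + 1 < t := by have := hne.2; omega
        rw [act_eq_zero k (cc_dd_gt h' true) (ha.2 j (by omega)),
          act_eq_zero k (cc_dd_gt h' false) (ha.2 j (by omega))]
        simp

theorem dd_mem_Lf {q i : ℕ} (hi : i < q) {e : Bool} (h : i ≠ 0 ∨ e = false) (a : Lam k Om) :
    act k (dd i e) a ∈ Lf k q ⊤ := by
  rw [← uu_dd_same i e e, ← act_act]
  exact mem_Lf k hi h Submodule.mem_top

theorem BB_sub_mem_Lf (q : ℕ) (a : Lam k Om) :
    BB k (q + 1) a - act k (dd 0 true) a ∈ Lf k (q + 1) ⊤ := by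
  rw [BB_apply, Finset.sum_range_succ', pow_zero, one_smul, add_sub_assoc, sub_sub_cancel_left]
  refine add_mem (Submodule.sum_mem _ fun i hi => Submodule.smul_mem _ _ (sub_mem ?_ ?_))
    (neg_mem (dd_mem_Lf k (by omega) (Or.inr rfl) a))
  · exact dd_mem_Lf k (by simpa using hi) (Or.inl (by omega)) a
  · exact dd_mem_Lf k (by simpa using hi) (Or.inr rfl) a

theorem dd_Lf {q : ℕ} {S : Submodule k (Lam k Om)} {a : Lam k Om} (ha : a ∈ Lf k q S) :
    act k (dd 0 true) a ∈ Lf k (q + 1) ⊤ := by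
  refine Lf_le k (T := (Lf k (q + 1) ⊤).comap (act k (dd 0 true))) (fun i e b h1 _ _ => ?_) ha
  rw [Submodule.mem_comap, act_act, dd_uu, ← act_act]
  exact mem_Lf k (by omega) (Or.inl (by omega)) Submodule.mem_top

/-- A normalised element supported on the boundary of the cube is a cubical coboundary. -/
theorem eq_BB {q : ℕ} {S : Submodule k (Lam k Om)}
    (hu : ∀ i < q, ∀ a ∈ S, act k (uu i false) a ∈ S)
    (hc : ∀ j, j + 1 < q → ∀ e, ∀ a ∈ S, act k (cc j e) a ∈ S) {a b : Lam k Om}
    (ha : a ∈ Nm k (q + 1)) (hb : b ∈ S) (hab : a - act k (dd 0 true) b ∈ Lf k (q + 1) ⊤) :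
    a ∈ (Nm k q ⊓ S).map (BB k (q + 1)) := by
  obtain ⟨h1, h2⟩ := fold_spec k hu hc hb
  refine ⟨fold k q b, ⟨fold_mem_Nm k q b, h1⟩, ?_⟩
  have h3 : a - BB k (q + 1) (fold k q b) ∈ Lf k (q + 1) ⊤ := by
    have h4 : a - BB k (q + 1) (fold k q b) = (a - act k (dd 0 true) b) +
        act k (dd 0 true) (b - fold k q b) -
        (BB k (q + 1) (fold k q b) - act k (dd 0 true) (fold k q b)) := by
      rw [map_sub]; abel
    rw [h4]
    exact sub_mem (add_mem hab (dd_Lf k h2)) (BB_sub_mem_Lf k q _)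
  have h5 := fold_of_mem k (sub_mem ha (BB_mem_Nm k (fold_mem_Nm k q b)))
  rw [fold_Lf k h3] at h5
  exact (sub_eq_zero.mp h5.symm).symm

theorem sum_sign_comp {M : Type*} [AddCommGroup M] [Module k M] (d : ℕ → Module.End k M)
    (h : ∀ i j, i ≤ j → d j * d i = d i * d (j + 1)) (q : ℕ) :
    (∑ j ∈ range q, (-1 : k) ^ j • d j) * (∑ i ∈ range (q + 1), (-1 : k) ^ i • d i) = 0 := by
  induction q with
  | zero => simp
  | succ q ih =>
    rw [Finset.sum_range_succ _ q, Finset.sum_range_succ _ (q + 1), add_mul, mul_add, ih, zero_add,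
      mul_add, Finset.mul_sum]
    have h1 : ∀ i ∈ range (q + 1), ((-1 : k) ^ q • d q) * ((-1 : k) ^ i • d i) =
        -(((-1 : k) ^ i • d i) * ((-1 : k) ^ (q + 1) • d (q + 1))) := by
      intro i hi
      rw [smul_mul_smul_comm, smul_mul_smul_comm, h i q (by simpa [Nat.lt_succ_iff] using hi),
        ← neg_smul]
      congr 1
      ring
    rw [Finset.sum_congr rfl h1, Finset.sum_neg_distrib, ← Finset.sum_mul, Finset.sum_range_succ,
      add_mul]
    abel

end Pool.Agent.VRCube
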