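import Pool.Agent.Lib.MP_e813cc_gt.Faces

set_option autoImplicit false

open Finset

namespace Pool.Agent.VRCube

variable (k : Type*) [Field k] {r n : ℕ}

/-- Cellular chains of the cube with coefficients in the exterior algebra. -/
abbrev CC (n : ℕ) := (Om → Vt n) →₀ Lam k Om

/-- Chains supported on `q`-faces with coefficients in `S`. -/
def GG (n q : ℕ) (S : Submodule k (Lam k Om)) : Submodule k (CC k n) where
  carrier := {c | ∀ f, c f ∈ S ∧ (¬ IsFace q f → c f = 0)}
  add_mem' := fun {a b} ha hb f => ⟨add_mem (ha f).1 (hb f).1, fun h => by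
    rw [Finsupp.add_apply, (ha f).2 h, (hb f).2 h, add_zero]⟩
  zero_mem' := fun _ => ⟨zero_mem _, fun _ => rfl⟩
  smul_mem' := fun c {a} ha f => ⟨S.smul_mem c (ha f).1, fun h => by
    rw [Finsupp.smul_apply, (ha f).2 h, smul_zero]⟩

theorem single_mem_GG {q : ℕ} {S : Submodule k (Lam k Om)} {f : Om → Vt n} (hf : IsFace q f)
    {a : Lam k Om} (ha : a ∈ S) : Finsupp.single f a ∈ GG k n q S := by
  classical
  intro g
  rw [Finsupp.single_apply]
  split_ifs with h
  · subst h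
    exact ⟨ha, fun h => absurd hf h⟩
  · exact ⟨zero_mem _, fun _ => rfl⟩

theorem GG_map {U : Type*} [AddCommGroup U] [Module k U] {q : ℕ} {S : Submodule k (Lam k Om)}
    {T : Submodule k U} (L : CC k n →ₗ[k] U)
    (h : ∀ f a, IsFace q f → a ∈ S → L (Finsupp.single f a) ∈ T) {c : CC k n}
    (hc : c ∈ GG k n q S) : L c ∈ T := by
  rw [← Finsupp.sum_single c, Finsupp.sum, map_sum]
  refine Submodule.sum_mem _ fun f hf => h f _ ?_ (hc f).1
  by_contra hne
  exact Finsupp.mem_support_iff.mp hf ((hc f).2 hne)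

noncomputable def Ev (n : ℕ) : CC k n →ₗ[k] Lam k (Vt n) := Finsupp.lsum k fun f => act k f

theorem Ev_single (f : Om → Vt n) (a : Lam k Om) : Ev k n (Finsupp.single f a) = act k f a := by
  simp [Ev]

/-- Coefficientwise application of a linear map. -/
noncomputable def mr (n : ℕ) (g : Lam k Om →ₗ[k] Lam k Om) : CC k n →ₗ[k] CC k n :=
  Finsupp.mapRange.linearMap g

theorem mr_apply (g : Lam k Om →ₗ[k] Lam k Om) (c : CC k n) (f : Om → Vt n) :
    mr k n g c f = g (c f) := by simp [mr]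

theorem mr_single (g : Lam k Om →ₗ[k] Lam k Om) (f : Om → Vt n) (a : Lam k Om) :
    mr k n g (Finsupp.single f a) = Finsupp.single f (g a) := by simp [mr]

theorem mr_mem {q : ℕ} {S S' : Submodule k (Lam k Om)} (g : Lam k Om →ₗ[k] Lam k Om)
    {c : CC k n} (hc : c ∈ GG k n q S) (h : ∀ f, g (c f) ∈ S') : mr k n g c ∈ GG k n q S' :=
  fun f => ⟨by rw [mr_apply]; exact h f, fun hf => by rw [mr_apply, (hc f).2 hf, map_zero]⟩

noncomputable def DD (n i : ℕ) (e : Bool) : Module.End k (CC k n) :=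
  Finsupp.lmapDomain (Lam k Om) k (fun f : Om → Vt n => f ∘ dd i e)

theorem DD_single (i : ℕ) (e : Bool) (f : Om → Vt n) (a : Lam k Om) :
    DD k n i e (Finsupp.single f a) = Finsupp.single (f ∘ dd i e) a := by simp [DD]

/-- The cellular boundary on `q`-faces. -/
noncomputable def cb (n q : ℕ) : Module.End k (CC k n) :=
  ∑ i ∈ range q, (-1 : k) ^ i • (DD k n i true - DD k n i false)

theorem cb_cb (q : ℕ) (c : CC k n) : cb k n q (cb k n (q + 1) c) = 0 := by
  have := sum_sign_comp k (fun i => DD k n i true - DD k n i false) (fun i j h => by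
    refine Finsupp.lhom_ext fun f a => ?_
    simp only [Module.End.mul_apply, LinearMap.sub_apply, map_sub, DD_single, Function.comp_assoc,
      dd_dd h]
    abel) q
  exact congrArg (fun T : Module.End k (CC k n) => T c) this

theorem cb_single (q : ℕ) (f : Om → Vt n) (a : Lam k Om) :
    cb k n q (Finsupp.single f a) = ∑ i ∈ range q, (-1 : k) ^ i •
      (Finsupp.single (f ∘ dd i true) a - Finsupp.single (f ∘ dd i false) a) := by
  simp [cb, LinearMap.sum_apply, DD_single]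

theorem Ev_cb (q : ℕ) (c : CC k n) : Ev k n (cb k n q c) = Ev k n (mr k n (BB k q) c) := by
  have : Ev k n ∘ₗ cb k n q = Ev k n ∘ₗ mr k n (BB k q) := by
    refine Finsupp.lhom_ext fun f a => ?_
    simp only [LinearMap.comp_apply, cb_single, mr_single, Ev_single, BB_apply, map_sum, map_smul,
      map_sub, act_act]
  exact congrArg (fun T : CC k n →ₗ[k] Lam k (Vt n) => T c) this

theorem cb_mr (q : ℕ) (g : Lam k Om →ₗ[k] Lam k Om) (c : CC k n) :
    cb k n q (mr k n g c) = mr k n g (cb k n q c) := by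
  have : cb k n q ∘ₗ mr k n g = mr k n g ∘ₗ cb k n q := by
    refine Finsupp.lhom_ext fun f a => ?_
    simp only [LinearMap.comp_apply, cb_single, mr_single, map_sum, map_smul, map_sub]
  exact congrArg (fun T : CC k n →ₗ[k] CC k n => T c) this

theorem cb_mem {q : ℕ} {S : Submodule k (Lam k Om)} {c : CC k n} (hc : c ∈ GG k n (q + 1) S) :
    cb k n (q + 1) c ∈ GG k n q S := by
  refine GG_map k _ (fun f a hf ha => ?_) hc
  rw [cb_single]
  exact Submodule.sum_mem _ fun i hi => Submodule.smul_mem _ _ (sub_mem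
    (single_mem_GG k (hf.comp_dd (mem_range.mp hi) true) ha)
    (single_mem_GG k (hf.comp_dd (mem_range.mp hi) false) ha))

theorem Ev_del {q q' len : ℕ} {c : CC k n} (hc : c ∈ GG k n q (AA k r q' len)) :
    Ev k n (mr k n (del k Om) c) = del k (Vt n) (Ev k n c) := by
  have := GG_map k (T := ⊥) (Ev k n ∘ₗ mr k n (del k Om) - del k (Vt n) ∘ₗ Ev k n)
    (fun f a _ ha => by
      simp only [LinearMap.sub_apply, LinearMap.comp_apply, mr_single, Ev_single, act_del k f ha,
        sub_self, Submodule.zero_mem]) hc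
  simpa [sub_eq_zero] using this

theorem Ev_AA {q len : ℕ} {c : CC k n} (hc : c ∈ GG k n q (AA k r q len)) :
    Ev k n c ∈ TT' k r n q len :=
  GG_map k _ (fun f a hf ha => by rw [Ev_single]; exact face_AA k hf ha) hc

theorem Ev_Low {q len : ℕ} {c : CC k n} (hc : c ∈ GG k n (q + 1) (Low k r (q + 1) len)) :
    Ev k n c ∈ TT' k r n q len :=
  GG_map k _ (fun f a hf ha => by rw [Ev_single]; exact face_Low k hf ha) hc

theorem GG_mono {q : ℕ} {S S' : Submodule k (Lam k Om)} (h : S ≤ S') {c : CC k n}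
    (hc : c ∈ GG k n q S) : c ∈ GG k n q S' := fun f => ⟨h (hc f).1, (hc f).2⟩

theorem exists_Ev {q len : ℕ} (hq : q + 1 ≤ n) {x : Lam k (Vt n)}
    (hx : x ∈ TT' k r n (q + 1) (len + 1)) :
    ∃ c ∈ GG k n (q + 1) (Nm k (q + 1) ⊓ AA k r (q + 1) (len + 1)),
      x - Ev k n c ∈ TT' k r n q (len + 1) := by
  have h1 : x ∈ (GG k n (q + 1) (AA k r (q + 1) (len + 1))).map (Ev k n) := by
    refine sp_le k (fun l hl => ?_) hx
    obtain ⟨f, l', hf, hl', rfl⟩ := exists_face hq hl
    exact ⟨_, single_mem_GG k hf (wedge_mem k hl'), by rw [Ev_single, act_wedge]⟩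
  obtain ⟨c, hc, rfl⟩ := h1
  refine ⟨mr k n (fold k (q + 1)) c, mr_mem k _ hc fun f => (fold_AA k (hc f).1).1, ?_⟩
  rw [← map_sub]
  refine Ev_Low k fun f => ⟨?_, fun hf => ?_⟩
  · rw [Finsupp.sub_apply, mr_apply]
    exact (fold_AA k (hc f).1).2
  · rw [Finsupp.sub_apply, mr_apply, (hc f).2 hf, map_zero, sub_zero]

theorem Low_of_Ev {q len : ℕ} {c : CC k n} (hc : c ∈ GG k n (q + 1) (AA k r (q + 1) len))
    (h : Ev k n c ∈ TT' k r n q len) (f : Om → Vt n) : c f ∈ Low k r (q + 1) len := by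
  classical
  by_cases hf : IsFace (q + 1) f
  · obtain ⟨R, h1, h2, h3⟩ := exists_extract k (r := r) (len := len) hf
    have h4 := GG_map k (T := Low k r (q + 1) len) (Finsupp.lapply f - R ∘ₗ Ev k n)
      (fun f' a hf' ha => by
        simp only [LinearMap.sub_apply, LinearMap.comp_apply, Ev_single, Finsupp.lapply_apply,
          Finsupp.single_apply]
        split_ifs with h5
        · subst h5
          exact h1 a ha
        · rw [h2 f' hf' h5 a ha, sub_zero]
          exact zero_mem _) hc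
    simpa [h3 _ h] using h4
  · rw [(hc f).2 hf]
    exact zero_mem _

theorem TT'_mono {p p' len : ℕ} (h : p ≤ p') : TT' k r n p len ≤ TT' k r n p' len :=
  sp_le k fun _ hl => wedge_mem k ⟨hl.1, hl.2.1, hl.2.2.trans h⟩

theorem del_TT' {p len : ℕ} {x : Lam k (Vt n)} (hx : x ∈ TT' k r n p (len + 1)) :
    del k (Vt n) x ∈ TT' k r n p len := by
  refine del_mem k (fun l l' hl hs hlen => ⟨by have := hl.1; omega,
    fun x hx y hy => hl.2.1 x (hs.subset hx) y (hs.subset hy), le_trans (card_le_card ?_) hl.2.2⟩) hx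
  intro i hi
  obtain ⟨u, hu, v, hv, huv⟩ := mem_vary.mp hi
  exact mem_vary.mpr ⟨u, hs.subset hu, v, hs.subset hv, huv⟩

theorem main_lam {q len : ℕ} (hq : q + 2 ≤ n) {x : Lam k (Vt n)}
    (hx : x ∈ TT' k r n (q + 2) (len + 1)) (hdx : del k (Vt n) x ∈ TT' k r n q len) :
    ∃ y ∈ TT' k r n (q + 1) (len + 1), del k (Vt n) y = del k (Vt n) x := by
  obtain ⟨c0, hc0, hx1⟩ := exists_Ev k hq hx
  obtain ⟨c1, hc1, hx2⟩ := exists_Ev k (by omega) hx1
  have hc0' := GG_mono k inf_le_right hc0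
  have hc1' := GG_mono k inf_le_right hc1
  -- the boundary of the top part
  have h1 : ∀ f, del k Om (c0 f) ∈ (Nm k (q + 1) ⊓ AA k r (q + 1) len).map (BB k (q + 2)) := by
    intro f
    refine Low_Nm k ?_ (del_Nm k (hc0 f).1.2 (hc0 f).1.1)
    rw [← mr_apply]
    refine Low_of_Ev k (mr_mem k _ hc0 fun f => del_AA k (hc0 f).1.2) ?_ f
    rw [Ev_del k hc0']
    have h2 := sub_mem (TT'_mono k (Nat.le_succ q) hdx) (del_TT' k hx1)
    rwa [map_sub, sub_sub_cancel] at h2
  obtain ⟨s, hs1, hs2⟩ := exists_lift k (Nm k (q + 1) ⊓ AA k r (q + 1) len) (BB k (q + 2))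
  set w := mr k n s (mr k n (del k Om) c0) with hw
  have hwm : w ∈ GG k n (q + 2) (Nm k (q + 1) ⊓ AA k r (q + 1) len) :=
    mr_mem k _ (mr_mem k (S' := ⊤) _ hc0 fun _ => trivial) fun f => hs1 _
  set u := cb k n (q + 2) w with hu
  have hum : u ∈ GG k n (q + 1) (Nm k (q + 1) ⊓ AA k r (q + 1) len) := cb_mem k hwm
  have hEu : Ev k n u = del k (Vt n) (Ev k n c0) := by
    rw [hu, Ev_cb, ← Ev_del k hc0']
    congr 1
    ext1 f
    rw [mr_apply, hw, mr_apply, mr_apply, hs2 _ (h1 f)]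
  have h3 : ∀ f, u f + del k Om (c1 f) ∈ (Nm k q ⊓ AA k r q len).map (BB k (q + 1)) := by
    intro f
    refine Low_Nm k ?_ (add_mem (hum f).1.1 (del_Nm k (hc1 f).1.2 (hc1 f).1.1))
    rw [← mr_apply, ← Finsupp.add_apply]
    refine Low_of_Ev k (add_mem (GG_mono k inf_le_right hum)
      (mr_mem k _ hc1 fun f => del_AA k (hc1 f).1.2)) ?_ f
    rw [map_add, hEu, Ev_del k hc1']
    have h2 := sub_mem hdx (del_TT' k hx2)
    rw [map_sub, map_sub] at h2
    convert h2 using 1
    abel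
  obtain ⟨t, ht1, ht2⟩ := exists_lift k ((AA k r (q + 1) (len + 1)).prod ⊤)
    ((del k Om).coprod (BB k (q + 1)))
  have h4 : ∀ f, del k Om (t (u f)).1 + BB k (q + 1) (t (u f)).2 = u f := by
    intro f
    obtain ⟨b, -, hb⟩ := h3 f
    refine ht2 (u f) ⟨(-c1 f, b), ⟨neg_mem (hc1 f).1.2, trivial⟩, ?_⟩
    rw [LinearMap.coprod_apply, map_neg, hb]
    abel
  have hy : mr k n (LinearMap.fst k _ _ ∘ₗ t) u ∈ GG k n (q + 1) (AA k r (q + 1) (len + 1)) :=
    mr_mem k _ hum fun f => (ht1 _).1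
  refine ⟨Ev k n (mr k n (LinearMap.fst k _ _ ∘ₗ t) u) + (x - Ev k n c0),
    add_mem (Ev_AA k hy) hx1, ?_⟩
  have h5 : mr k n (del k Om) (mr k n (LinearMap.fst k _ _ ∘ₗ t) u) =
      u - mr k n (BB k (q + 1)) (mr k n (LinearMap.snd k _ _ ∘ₗ t) u) := by
    ext1 f
    rw [Finsupp.sub_apply, mr_apply, mr_apply, mr_apply, mr_apply, eq_sub_iff_add_eq]
    exact h4 f
  rw [map_add, ← Ev_del k hy, h5, map_sub, ← Ev_cb, cb_mr, hu, cb_cb, map_zero, map_zero, sub_zero,
    ← hu, hEu, map_sub]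
  abel

end Pool.Agent.VRCube
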