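import Mathlib

set_option autoImplicit false

open Finset

namespace Pool.Agent.VRCube

variable (k : Type*) [Field k]

/-- Exterior algebra on the free module on a vertex type. -/
abbrev Lam (X : Type*) := ExteriorAlgebra k (X →₀ k)

variable {X Y Z : Type*}

noncomputable def vx (x : X) : Lam k X := ExteriorAlgebra.ι k (Finsupp.single x (1 : k))

noncomputable def wedge (l : List X) : Lam k X := (l.map (vx k)).prod

@[simp] theorem wedge_nil : wedge k ([] : List X) = 1 := rfl

@[simp] theorem wedge_cons (a : X) (l : List X) : wedge k (a :: l) = vx k a * wedge k l := by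
  simp [wedge]

noncomputable def act (f : X → Y) : Lam k X →ₗ[k] Lam k Y :=
  (ExteriorAlgebra.map (Finsupp.lmapDomain k k f)).toLinearMap

theorem act_wedge (f : X → Y) (l : List X) : act k f (wedge k l) = wedge k (l.map f) := by
  induction l with
  | nil => simp [act]
  | cons a l ih =>
    simp only [act, AlgHom.toLinearMap_apply] at ih
    simp [act, vx, ih]

theorem act_comp (g : Y → Z) (f : X → Y) : act k (g ∘ f) = act k g ∘ₗ act k f := by
  simp only [act]
  rw [Finsupp.lmapDomain_comp, ← ExteriorAlgebra.map_comp_map]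
  rfl

theorem act_act (g : Y → Z) (f : X → Y) (a : Lam k X) :
    act k g (act k f a) = act k (g ∘ f) a := by rw [act_comp]; rfl

theorem act_id : act k (id : X → X) = LinearMap.id := by
  simp only [act]
  rw [Finsupp.lmapDomain_id, ExteriorAlgebra.map_id]
  rfl

theorem act_eq_zero {f : X → Y} {φ : X → X} (h : f ∘ φ = f) {a : Lam k X}
    (ha : act k φ a = 0) : act k f a = 0 := by
  rw [← h, ← act_act, ha, map_zero]

/-- The (augmented) boundary: contraction with the augmentation. -/
noncomputable def del (X : Type*) : Lam k X →ₗ[k] Lam k X :=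
  CliffordAlgebra.contractLeft (Finsupp.linearCombination k (fun _ : X => (1 : k)))

theorem del_vx_mul (a : X) (x : Lam k X) : del k X (vx k a * x) = x - vx k a * del k X x := by
  have := CliffordAlgebra.contractLeft_ι_mul (Q := (0 : QuadraticForm k (X →₀ k)))
    (Finsupp.linearCombination k (fun _ : X => (1 : k))) (Finsupp.single a 1) x
  rw [Finsupp.linearCombination_single, one_smul, one_smul] at this
  exact this

theorem del_one : del k X 1 = 0 := CliffordAlgebra.contractLeft_one _ _

theorem del_del (x : Lam k X) : del k X (del k X x) = 0 :=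
  CliffordAlgebra.contractLeft_contractLeft _ x

theorem act_mul (f : X → Y) (a b : Lam k X) : act k f (a * b) = act k f a * act k f b := by
  simp [act]

theorem act_vx (f : X → Y) (a : X) : act k f (vx k a) = vx k (f a) := by
  simp [act, vx]

theorem act_del_wedge (f : X → Y) (l : List X) :
    act k f (del k X (wedge k l)) = del k Y (act k f (wedge k l)) := by
  induction l with
  | nil => simp [del_one, act]
  | cons a l ih =>
    rw [wedge_cons, del_vx_mul, map_sub, act_mul, act_mul, act_vx, del_vx_mul, ih]

theorem vx_mul_vx (a : X) : vx k a * vx k a = 0 := ExteriorAlgebra.ι_sq_zero _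

theorem vx_swap (a b : X) : vx k a * vx k b = -(vx k b * vx k a) :=
  eq_neg_of_add_eq_zero_left (ExteriorAlgebra.ι_add_mul_swap _ _)

theorem wedge_perm {l l' : List X} (h : l.Perm l') : ∃ c : k, wedge k l = c • wedge k l' := by
  induction h with
  | nil => exact ⟨1, by simp⟩
  | cons a _ ih =>
    obtain ⟨c, hc⟩ := ih
    exact ⟨c, by simp [hc]⟩
  | swap a b l =>
    refine ⟨-1, ?_⟩
    simp only [wedge_cons, ← mul_assoc]
    rw [vx_swap]
    simp
  | trans _ _ ih1 ih2 =>
    obtain ⟨c, hc⟩ := ih1
    obtain ⟨c', hc'⟩ := ih2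
    exact ⟨c * c', by rw [hc, hc', smul_smul]⟩

theorem wedge_eq_zero {l : List X} (h : ¬ l.Nodup) : wedge k l = 0 := by
  classical
  induction l with
  | nil => simp at h
  | cons a l ih =>
    rw [List.nodup_cons] at h
    by_cases ha : a ∈ l
    · obtain ⟨c, hc⟩ := wedge_perm k (List.perm_cons_erase ha)
      rw [wedge_cons, hc, wedge_cons, mul_smul_comm, ← mul_assoc, vx_mul_vx, zero_mul, smul_zero]
    · rw [wedge_cons, ih (fun hn => h ⟨ha, hn⟩), mul_zero]

/-- Spans of wedges of lists with a property. -/
noncomputable def sp (P : List X → Prop) : Submodule k (Lam k X) :=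
  Submodule.span k {a | ∃ l, P l ∧ wedge k l = a}

theorem wedge_mem {P : List X → Prop} {l : List X} (h : P l) : wedge k l ∈ sp k P :=
  Submodule.subset_span ⟨l, h, rfl⟩

theorem sp_le {P : List X → Prop} {S : Submodule k (Lam k X)} (h : ∀ l, P l → wedge k l ∈ S) :
    sp k P ≤ S := by
  rw [sp, Submodule.span_le]
  rintro _ ⟨l, hl, rfl⟩
  exact h l hl

theorem map_mem {U : Type*} [AddCommGroup U] [Module k U] {P : List X → Prop} {S : Submodule k U}
    (T : Lam k X →ₗ[k] U) (h : ∀ l, P l → T (wedge k l) ∈ S) {a : Lam k X} (ha : a ∈ sp k P) :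
    T a ∈ S :=
  sp_le k (S := S.comap T) h ha

theorem act_mem {P : List X → Prop} {Q : List Y → Prop} (f : X → Y)
    (h : ∀ l, P l → Q (l.map f)) {a : Lam k X} (ha : a ∈ sp k P) : act k f a ∈ sp k Q :=
  map_mem k _ (fun l hl => by rw [act_wedge]; exact wedge_mem k (h l hl)) ha

theorem act_del {P : List X → Prop} (f : X → Y) {a : Lam k X} (ha : a ∈ sp k P) :
    act k f (del k X a) = del k Y (act k f a) := by
  have := map_mem k (S := ⊥) (act k f ∘ₗ del k X - del k Y ∘ₗ act k f)
    (fun l _ => by simp [act_del_wedge]) ha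
  simpa [sub_eq_zero] using this

theorem del_wedge_mem (l : List X) :
    del k X (wedge k l) ∈ sp k (fun l' => l'.Sublist l ∧ l'.length + 1 = l.length) := by
  induction l with
  | nil => simp [del_one]
  | cons a l ih =>
    rw [wedge_cons, del_vx_mul]
    refine sub_mem (wedge_mem k ⟨List.sublist_cons_self a l, rfl⟩) ?_
    refine map_mem k (LinearMap.mulLeft k (vx k a)) (fun l' hl' => ?_) ih
    rw [LinearMap.mulLeft_apply, ← wedge_cons]
    exact wedge_mem k ⟨hl'.1.cons_cons a, by simp [hl'.2]⟩

theorem del_mem {P Q : List X → Prop}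
    (h : ∀ l l', P l → l'.Sublist l → l'.length + 1 = l.length → Q l') {a : Lam k X}
    (ha : a ∈ sp k P) : del k X a ∈ sp k Q :=
  map_mem k _ (fun l hl => sp_le k (fun l' hl' => wedge_mem k (h l l' hl hl'.1 hl'.2))
    (del_wedge_mem k l)) ha

section Order

variable [LinearOrder X]

/-- The oriented simplex with increasing vertices. -/
noncomputable def W (σ : Finset X) : Lam k X := wedge k σ.sort

theorem W_eq_basis (σ : Finset X) :
    W k σ = (Finsupp.basisSingleOne (ι := X) (R := k)).ExteriorAlgebra σ := by
  rw [ExteriorAlgebra.basis_apply, ExteriorAlgebra.ιMulti_family, ExteriorAlgebra.ιMulti_apply,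
    W, wedge]
  congr 1
  apply List.ext_getElem
  · simp
  · intro i h1 h2
    simp [vx, Set.powersetCard.ofFinEmbEquiv_symm_apply, Finset.orderEmbOfFin_apply]

/-- The identification of chains with the exterior algebra. -/
noncomputable def Phi : (Finset X →₀ k) ≃ₗ[k] Lam k X :=
  (Finsupp.basisSingleOne (ι := X) (R := k)).ExteriorAlgebra.repr.symm

theorem Phi_single (σ : Finset X) (c : k) : Phi k (Finsupp.single σ c) = c • W k σ := by
  rw [Phi, Module.Basis.repr_symm_single, W_eq_basis]

theorem wedge_eq_W [DecidableEq X] (l : List X) : ∃ c : k, wedge k l = c • W k l.toFinset := by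
  by_cases h : l.Nodup
  · refine wedge_perm k ?_
    rw [List.perm_ext_iff_of_nodup h (Finset.sort_nodup _ _)]
    simp
  · exact ⟨0, by rw [wedge_eq_zero k h, zero_smul]⟩

theorem W_insert {a : X} {s : Finset X} (h : ∀ x ∈ s, a < x) :
    W k (insert a s) = vx k a * W k s := by
  rw [W, Finset.sort_insert _ (fun x hx => (h x hx).le) (fun ha => lt_irrefl _ (h a ha)),
    wedge_cons, W]

theorem del_W (σ : Finset X) :
    del k X (W k σ) = ∑ v ∈ σ, (-1 : k) ^ (σ.filter (· < v)).card • W k (σ.erase v) := by
  induction σ using Finset.induction_on_min with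
  | empty => simp [W, del_one]
  | insert a s h ih =>
    have ha : a ∉ s := fun ha => lt_irrefl _ (h a ha)
    rw [W_insert k h, del_vx_mul, ih, Finset.sum_insert ha, Finset.erase_insert ha]
    have h0 : (insert a s).filter (· < a) = ∅ := by
      rw [Finset.filter_eq_empty_iff]
      intro x hx
      rcases Finset.mem_insert.mp hx with rfl | hx
      · exact lt_irrefl _
      · exact (h x hx).le.not_gt
    rw [h0, Finset.card_empty, pow_zero, one_smul, sub_eq_add_neg, Finset.mul_sum,
      ← Finset.sum_neg_distrib]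
    congr 1
    refine Finset.sum_congr rfl fun v hv => ?_
    have h1 : (insert a s).filter (· < v) = insert a (s.filter (· < v)) := by
      rw [Finset.filter_insert, if_pos (h v hv)]
    rw [h1, Finset.card_insert_of_notMem (by simp [ha]), Finset.erase_insert_of_ne (h v hv).ne,
      W_insert k (fun x hx => h x (Finset.mem_of_mem_erase hx)), pow_succ, mul_smul_comm]
    simp

open Classical in
/-- Projection onto the simplices with a property. -/
noncomputable def proj (S : Finset X → Prop) : Lam k X →ₗ[k] Lam k X :=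
  (Finsupp.basisSingleOne (ι := X) (R := k)).ExteriorAlgebra.constr k
    (fun σ => if S σ then W k σ else 0)

open Classical in
theorem proj_wedge [DecidableEq X] (S : Finset X → Prop) (l : List X) :
    proj k S (wedge k l) = if S l.toFinset then wedge k l else 0 := by
  obtain ⟨c, hc⟩ := wedge_eq_W k l
  rw [hc, map_smul, W_eq_basis, proj, Module.Basis.constr_basis, ← W_eq_basis]
  split_ifs <;> simp

end Order

theorem exists_lift {U U' : Type*} [AddCommGroup U] [Module k U] [AddCommGroup U'] [Module k U']
    (S' : Submodule k U') (g : U' →ₗ[k] U) :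
    ∃ s : U →ₗ[k] U', (∀ u, s u ∈ S') ∧ ∀ u ∈ S'.map g, g (s u) = u := by
  let g' : S' →ₗ[k] S'.map g := g.submoduleMap S'
  obtain ⟨s, hs⟩ := g'.exists_rightInverse_of_surjective
    (LinearMap.range_eq_top.mpr (g.submoduleMap_surjective S'))
  obtain ⟨t, ht⟩ := s.exists_extend
  refine ⟨S'.subtype ∘ₗ t, fun u => (t u).2, fun u hu => ?_⟩
  have h1 : t u = s ⟨u, hu⟩ := congrArg (fun T : S'.map g →ₗ[k] S' => T ⟨u, hu⟩) ht
  have h2 : g' (s ⟨u, hu⟩) = ⟨u, hu⟩ := congrArg (fun T : S'.map g →ₗ[k] S'.map g => T ⟨u, hu⟩) hs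
  rw [LinearMap.comp_apply, h1]
  exact congrArg Subtype.val h2

end Pool.Agent.VRCube
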